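import Pool.Agent.H54.W.DefH
import Pool.Agent.H21.W.TauPos
import Pool.Agent.H93.W.CwI
import Pool.Agent.H93.Sp.Net

set_option autoImplicit false
open Finset

/-!
# Weights of a step of the line in the horizontal windows

`D : HWin`, `τ` a position of the line, `HStep D τ i x₁ x₂` : the strip `[x₁, x₂)` of the row `i` is swept, so
the line at the position `τ` is in the row `i` of the strip and at the position `push τ i x₁ x₂` in the row
`i - 1`. `PH D τ` : positions of the random tiles. `wtH` : the table `WtW` of the weights `wA`, `wtS` : the same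
if the column `x0` is frozen from the row `s` upwards with the weight `κ` of the state {W-N, S-E} (the tiles
of the line included).
-/

namespace Pool.Agent.H34.W

open Pool.Agent.H54.W Pool.Agent.H21.W.Tau Pool.Agent.H21.W.TauPos
open Pool.Agent.H75.Perc Pool.Agent.H75.TwoArm Pool.Agent.Q1 Pool.Agent.H33.Q1
open Pool.Agent.H81.G1
open Pool.Agent.H64.Win Pool.Agent.H93.W
open Pool.Agent.H74.R45 (exists_lt ce inq)
open Pool.Agent.H46.Sp (TP lbP tyP crP tilesP)

variable {D : HWin} {τ : ℤ → ℤ} {x y : ℤ}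

/-! ### Tiles -/

open Classical in
/-- positions of the random tiles -/
noncomputable def PH (D : HWin) (τ : ℤ → ℤ) : Finset (ℤ × ℤ) :=
  (Icc (D.p - 2) (D.q + 1) ×ˢ Icc (D.lo - 2) D.w).filter fun t => D.InE τ t.1 t.2

lemma mem_PH (H : HPos D τ) : (x, y) ∈ PH D τ ↔ D.InE τ x y := by
  classical
  unfold PH
  simp only [mem_filter, mem_product, mem_Icc]
  refine ⟨fun h => h.2, fun h => ⟨?_, h⟩⟩
  have := h.z H
  omega

lemma mem_PH' (H : HPos D τ) (q : ℤ × ℤ) : q ∈ PH D τ ↔ D.InE τ q.1 q.2 := mem_PH H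

lemma EH_mem (H : HPos D τ) (q : ℤ × ℤ) : lt q ∈ D.EH τ ↔ q ∈ PH D τ := by
  obtain ⟨x, y⟩ := q
  rw [HWin.mem_EH H, mem_PH H]

lemma EH_iff (H : HPos D τ) (e : ℤ × ℤ) : e ∈ D.EH τ ↔ ∃ q ∈ PH D τ, lt q = e := by
  constructor
  · intro h
    obtain ⟨x, y, rfl⟩ := exists_lt (HWin.odd_EH h)
    exact ⟨(x, y), (EH_mem H _).1 h, rfl⟩
  · rintro ⟨q, h1, rfl⟩
    exact (EH_mem H _).2 h1

/-- the tiles of `XH O τ` -/
theorem tilesH (O : HOut D) (H : HPos D τ) :
    Tiles (HWin.XH O τ) (lbP : TP (PH D τ) → ℤ × ℤ) tyP crP := tilesP fun e => EH_iff H e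

theorem isEnv_XH (O : HOut D) (τ : ℤ → ℤ) :
    IsEnv (HWin.XH O τ) (HWin.XH O τ).E (D.WH τ O.Wo) where
  E := rfl
  out _ := rfl
  dout _ := rfl

/-! ### Weights -/

/-- weights of the state {W-N, S-E}, as a function of the position -/
noncomputable def aH (D : HWin) (τ : ℤ → ℤ) (a b c : ℂ) (q : ℤ × ℤ) : ℂ := D.wA τ a b c q.1 q.2

/-- the column `x0` is frozen from the row `s` upwards, weight `κ` of the state {W-N, S-E} -/
noncomputable def str (x0 s : ℤ) (κ : ℂ) (α : ℤ × ℤ → ℂ) (q : ℤ × ℤ) : ℂ :=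
  if q.1 = x0 ∧ s ≤ q.2 then κ else α q

/-- open weights, if the state {W-N, S-E} has the weights `α` -/
noncomputable def opw (α : ℤ × ℤ → ℂ) (e : ℤ × ℤ) : ℂ := Win.wal (tt e).1 (tt e).2 (α (tt e))

lemma opw_aH (a b c : ℂ) : opw (aH D τ a b c) = D.qH τ a b c := rfl

lemma hasW_opw (P : Finset (ℤ × ℤ)) (α : ℤ × ℤ → ℂ) : HasW P (opw α) α := by
  intro x y _
  unfold opw
  rw [tt_lt]
  rfl

lemma hasW_qH (P : Finset (ℤ × ℤ)) (a b c : ℂ) : HasW P (D.qH τ a b c) (aH D τ a b c) :=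
  hasW_opw P (aH D τ a b c)

/-! ### Neighbours of the strip -/

section step

variable {i x₁ x₂ : ℤ}

/-- the strip ends at a left wall, reflex corner of length one -/
def lRt (D : HWin) (i x₁ : ℤ) : Bool := decide (D.p < x₁ ∧ D.a (x₁ - 1) = i + 1)

/-- the strip ends at a right wall, reflex corner of length one -/
def rRt (D : HWin) (i x₂ : ℤ) : Bool := decide (x₂ < D.q ∧ D.a x₂ = i + 1)

lemma step_left (H : HPos D τ) (S : HStep D τ i x₁ x₂) (h : D.p < x₁) :
    τ (x₁ - 1) = D.a (x₁ - 1) ∧ i + 1 ≤ D.a (x₁ - 1) := by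
  have h1 := S.left h
  have h2 := S.x12
  have h3 := S.xq
  have h4 := S.tau x₁ le_rfl h2
  have h5 := H.lo (x₁ - 1) (by omega) (by omega)
  refine ⟨?_, by omega⟩
  rcases eq_or_lt_of_le (show i + 1 ≤ τ (x₁ - 1) by omega) with h6 | h6
  · omega
  · exact H.dn (x₁ - 1) (by omega) (by omega) (by rw [sub_add_cancel]; omega)

lemma step_right (H : HPos D τ) (S : HStep D τ i x₁ x₂) (h : x₂ < D.q) :
    τ x₂ = D.a x₂ ∧ i + 1 ≤ D.a x₂ := by
  have h0 := S.x0
  have h1 := S.right h
  have h2 := S.x12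
  have h4 := S.tau (x₂ - 1) (by omega) (by omega)
  have h5 := H.lo x₂ (by omega) h
  refine ⟨?_, by omega⟩
  rcases eq_or_lt_of_le (show i + 1 ≤ τ x₂ by omega) with h6 | h6
  · omega
  · have := H.up (x₂ - 1) (by omega) (by omega) (by rw [sub_add_cancel]; omega)
    rwa [sub_add_cancel] at this

variable {a b c : ℂ}

/-- the tile of the line at the position `τ` and the other tiles -/
lemma aH_in (hx1 : D.p ≤ x) (hx2 : x < D.q) : aH D τ a b c (x, y) =
    if y = τ x - 1 then
    (if x + 1 < D.q ∧ τ (x + 1) < τ x then 1 - b * (1 - a)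
    else if D.p < x ∧ τ (x - 1) < τ x then (1 - c) * a
    else a)
  else if y < D.a x - 1 then (if x + 1 < D.q ∧ τ (x + 1) < τ x then 1 - b else 1 - c)
  else 1 / 2 := by
  unfold aH HWin.wA
  simp only
  rw [if_neg (by omega), if_neg (by omega)]

/-- **The weights of a step.** -/
theorem wtH (H : HPos D τ) (S : HStep D τ i x₁ x₂) (a b c : ℂ) :
    WtW (PH D (push τ i x₁ x₂)) (PH D τ) x₁ x₂ i true (lRt D i x₁) true (rRt D i x₂)
      (fun _ => a) (fun _ => 1 / 2) b c a a (aH D (push τ i x₁ x₂) a b c) (aH D τ a b c) := by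
  have h0 := S.x0
  have h12 := S.x12
  have hq := S.xq
  have hL := step_left H S
  have hR := step_right H S
  have hroom := S.room
  have htau := S.tau
  -- drops and rises next to the strip
  have hl2 : D.p < x₁ - 1 → ¬ τ (x₁ - 2) < τ (x₁ - 1) := by
    intro h1 h2
    obtain ⟨h3, h4⟩ := hL (by omega)
    have h5 := H.lo (x₁ - 2) (by omega) (by omega)
    have h6 := HWin.no_ud (D := D) (x := x₁ - 1) h1 (by omega)
      (by rw [show x₁ - 1 - 1 = x₁ - 2 by ring]; omega)
    rw [sub_add_cancel] at h6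
    have := hroom x₁ le_rfl h12
    omega
  have hr2 : x₂ + 1 < D.q → ¬ τ (x₂ + 1) < τ x₂ := by
    intro h1 h2
    obtain ⟨h3, h4⟩ := hR (by omega)
    have h5 := H.lo (x₂ + 1) (by omega) (by omega)
    have h6 := HWin.no_ud (D := D) (x := x₂) (by omega) h1
      (by have := hroom (x₂ - 1) (by omega) (by omega); omega)
    omega
  have pin : ∀ x, x₁ ≤ x → x < x₂ → push τ i x₁ x₂ x = i := fun x h1 h2 => push_in h1 h2
  have pout : ∀ x, x < x₁ ∨ x₂ ≤ x → push τ i x₁ x₂ x = τ x := fun x h1 => push_out h1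
  -- no drop, no rise at the strip
  have nd : ∀ x, x₁ ≤ x → x < x₂ → ¬ (x + 1 < D.q ∧ push τ i x₁ x₂ (x + 1) < i) ∧
      ¬ (x + 1 < D.q ∧ τ (x + 1) < i + 1) ∧ ¬ (D.p < x ∧ push τ i x₁ x₂ (x - 1) < i) ∧
      ¬ (D.p < x ∧ τ (x - 1) < i + 1) := by
    intro x h1 h2
    have k1 : x + 1 < D.q → i + 1 ≤ τ (x + 1) := by
      intro h3
      rcases lt_or_ge (x + 1) x₂ with h4 | h4
      · rw [htau _ (by omega) h4]
      · obtain rfl : x₂ = x + 1 := by omega
        obtain ⟨k1, k2⟩ := hR h3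
        omega
    have k2 : D.p < x → i + 1 ≤ τ (x - 1) := by
      intro h3
      rcases le_or_gt x₁ (x - 1) with h4 | h4
      · rw [htau _ h4 (by omega)]
      · obtain rfl : x₁ = x := by omega
        obtain ⟨k1, k2⟩ := hL h3
        omega
    have k3 : x + 1 < D.q → i ≤ push τ i x₁ x₂ (x + 1) := by
      intro h3
      rcases lt_or_ge (x + 1) x₂ with h4 | h4
      · rw [pin _ (by omega) h4]
      · rw [pout _ (Or.inr h4)]; have := k1 h3; omega
    have k4 : D.p < x → i ≤ push τ i x₁ x₂ (x - 1) := by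
      intro h3
      rcases le_or_gt x₁ (x - 1) with h4 | h4
      · rw [pin _ h4 (by omega)]
      · rw [pout _ (Or.inl h4)]; have := k2 h3; omega
    refine ⟨fun h => ?_, fun h => ?_, fun h => ?_, fun h => ?_⟩
    · have := k3 h.1; omega
    · have := k1 h.1; omega
    · have := k4 h.1; omega
    · have := k2 h.1; omega
  refine ⟨?_, ?_, ?_, ?_, ?_, ?_, ?_, ?_, ?_, ?_, ?_, ?_, ?_⟩
  · intro x h1 h2
    have := hroom x h1 h2
    rw [aH_in (by omega) (by omega), pin x h1 h2, if_neg (by omega), if_neg (by omega)]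
  · intro x h1 h2
    have := hroom x h1 h2
    rw [aH_in (by omega) (by omega), htau x h1 h2, if_neg (by omega), if_neg (by omega)]
  · intro x h1 h2
    obtain ⟨n1, n2, n3, n4⟩ := nd x h1 h2
    rw [aH_in (by omega) (by omega), pin x h1 h2, if_pos rfl, if_neg n1, if_neg n3]
  · intro x h1 h2
    obtain ⟨n1, n2, n3, n4⟩ := nd x h1 h2
    rw [aH_in (by omega) (by omega), htau x h1 h2, if_pos (by ring), if_neg n2, if_neg n4]
  · intro _ h
    by_cases hp : D.p < x₁
    · obtain ⟨k1, k2⟩ := hL hp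
      have hne : D.a (x₁ - 1) ≠ i + 1 := by
        intro h3
        unfold lRt at h
        simp [hp, h3] at h
      rw [aH_in (by omega) (by omega), pout _ (Or.inl (by omega)), if_neg (by omega),
        if_pos (by omega), if_pos]
      refine ⟨by omega, ?_⟩
      rw [sub_add_cancel, pin _ le_rfl h12]
      omega
    · unfold aH HWin.wA
      simp only
      rw [if_pos (by omega)]
  · intro _ h
    unfold lRt at h
    obtain ⟨hp, h3⟩ := of_decide_eq_true h
    obtain ⟨k1, k2⟩ := hL hp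
    constructor
    · rw [aH_in (by omega) (by omega), pout _ (Or.inl (by omega)), if_pos (by omega), if_pos]
      · ring
      · refine ⟨by omega, ?_⟩
        rw [sub_add_cancel, pin _ le_rfl h12]
        omega
    · rw [aH_in (by omega) (by omega), if_pos (by omega), if_neg, if_neg]
      · rintro ⟨q1, q2⟩
        rw [show x₁ - 1 - 1 = x₁ - 2 by ring] at q2
        exact hl2 q1 q2
      · rintro ⟨q1, q2⟩
        rw [sub_add_cancel, htau _ le_rfl h12] at q2
        omega
  · intro h; exact absurd h (by simp)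
  · intro h; exact absurd h (by simp)
  · intro _ h
    by_cases hp : x₂ < D.q
    · obtain ⟨k1, k2⟩ := hR hp
      have hne : D.a x₂ ≠ i + 1 := by
        intro h3
        unfold rRt at h
        simp [hp, h3] at h
      rw [aH_in (by omega) hp, pout _ (Or.inr le_rfl), if_neg (by omega),
        if_pos (by omega), if_neg]
      rintro ⟨q1, q2⟩
      rw [pout _ (Or.inr (by omega))] at q2
      exact hr2 q1 q2
    · unfold aH HWin.wA
      simp only
      rw [if_neg (by omega), if_pos (by omega)]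
  · intro _ h
    unfold rRt at h
    obtain ⟨hp, h3⟩ := of_decide_eq_true h
    obtain ⟨k1, k2⟩ := hR hp
    constructor
    · rw [aH_in (by omega) hp, pout _ (Or.inr le_rfl), if_pos (by omega), if_neg, if_pos]
      · refine ⟨by omega, ?_⟩
        rw [pin _ (by omega) (by omega)]
        omega
      · rintro ⟨q1, q2⟩
        rw [pout _ (Or.inr (by omega))] at q2
        exact hr2 q1 q2
    · rw [aH_in (by omega) hp, if_pos (by omega), if_neg, if_neg]
      · rintro ⟨q1, q2⟩
        rw [htau _ (by omega) (by omega)] at q2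
        omega
      · rintro ⟨q1, q2⟩
        exact hr2 q1 q2
  · intro h; exact absurd h (by simp)
  · intro h; exact absurd h (by simp)
  · rintro ⟨x, y⟩ hq' e1 e2 e3 e4
    obtain ⟨⟨-, m2⟩, m3⟩ := mem_PO.1 hq'
    rw [mem_PH H] at m2
    simp only at m3
    simp only [ne_eq, Prod.mk.injEq, not_and] at e1 e2 e3 e4
    by_cases c1 : x < D.p
    · unfold aH HWin.wA
      simp only
      rw [if_pos c1, if_pos c1]
    by_cases c2 : D.q ≤ x
    · unfold aH HWin.wA
      simp only
      rw [if_neg c1, if_pos c2, if_neg c1, if_pos c2]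
    rw [aH_in (by omega) (by omega), aH_in (by omega) (by omega)]
    by_cases c3 : x₁ ≤ x ∧ x < x₂
    · obtain ⟨n1, n2, n3, n4⟩ := nd x c3.1 c3.2
      have g1 : ¬ y = i - 1 := fun h => m3 ⟨c3.1, c3.2, Or.inr h⟩
      have g2 : ¬ y = i + 1 - 1 := fun h => m3 ⟨c3.1, c3.2, Or.inl (by omega)⟩
      rw [pin x c3.1 c3.2, htau x c3.1 c3.2, if_neg g1, if_neg g2]
      by_cases c4 : y < D.a x - 1
      · rw [if_pos c4, if_pos c4, if_neg n1, if_neg n2]
      · rw [if_neg c4, if_neg c4]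
    · rw [pout x (by omega)]
      -- the two conditions agree
      have d1 : y = τ x - 1 ∨ y < D.a x - 1 →
          ((x + 1 < D.q ∧ push τ i x₁ x₂ (x + 1) < τ x) ↔ (x + 1 < D.q ∧ τ (x + 1) < τ x)) := by
        intro hy
        by_cases c4 : x + 1 = x₁
        · obtain rfl : x₁ = x + 1 := c4.symm
          obtain ⟨k1, k2⟩ := hL (by omega)
          rw [add_sub_cancel_right] at k1 k2
          rw [pin _ le_rfl h12, htau _ le_rfl h12]
          have hne : τ x ≠ i + 1 := by
            intro h3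
            rcases hy with hy | hy
            · exact e1 (by omega) (by omega)
            · -- not random
              rcases m2 with m2 | m2 | m2 | m2 | m2
              · have := m2.2.2.1; omega
              · obtain ⟨g1, g2, g3, g4⟩ := m2
                rw [htau _ le_rfl h12] at g3
                omega
              · obtain ⟨g1, g2, g3, g4⟩ := m2
                have g5 := hl2 (by omega)
                rw [show x + 1 - 2 = x - 1 by ring, add_sub_cancel_right] at g5
                omega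
              · have := m2.1; omega
              · have := m2.1; omega
          constructor
          · rintro ⟨g1, g2⟩; exact ⟨g1, by omega⟩
          · rintro ⟨g1, g2⟩; exact ⟨g1, by omega⟩
        · rw [pout (x + 1) (by omega)]
      by_cases c5 : y = τ x - 1
      · rw [if_pos c5, if_pos c5]
        have d2 : (D.p < x ∧ push τ i x₁ x₂ (x - 1) < τ x) ↔ (D.p < x ∧ τ (x - 1) < τ x) := by
          by_cases c4 : x = x₂
          · subst c4
            obtain ⟨k1, k2⟩ := hR (by omega)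
            rw [pin (x - 1) (by omega) (by omega), htau (x - 1) (by omega) (by omega)]
            have hne : τ x ≠ i + 1 := by
              intro h3
              exact e3 rfl (by omega)
            constructor
            · rintro ⟨g1, g2⟩; exact ⟨g1, by omega⟩
            · rintro ⟨g1, g2⟩; exact ⟨g1, by omega⟩
          · rw [pout (x - 1) (by omega)]
        simp only [d1 (Or.inl c5), d2]
      · rw [if_neg c5, if_neg c5]
        by_cases c6 : y < D.a x - 1
        · rw [if_pos c6, if_pos c6]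
          simp only [d1 (Or.inr c6)]
        · rw [if_neg c6, if_neg c6]

/-! ### The string -/

lemma str_of {x0 s : ℤ} {κ : ℂ} {α : ℤ × ℤ → ℂ} {q : ℤ × ℤ} (h1 : q.1 = x0) (h2 : s ≤ q.2) :
    str x0 s κ α q = κ := if_pos ⟨h1, h2⟩

lemma str_no {x0 s : ℤ} {κ : ℂ} {α : ℤ × ℤ → ℂ} {q : ℤ × ℤ} (h : ¬ (q.1 = x0 ∧ s ≤ q.2)) :
    str x0 s κ α q = α q := if_neg h

/-- **The weights of a step, with a string.** The string is the column `x0` from the row `s` upwards; the line
is either below it or crosses it at both positions. -/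
theorem wtS (H : HPos D τ) (S : HStep D τ i x₁ x₂) (a b c : ℂ) {x0 s : ℤ} {κ : ℂ}
    (hp : D.p ≤ x0) (hq : x0 < D.q) (hs : D.a x0 ≤ s)
    (h : τ x0 ≤ s ∨ s < push τ i x₁ x₂ x0) :
    WtW (PH D (push τ i x₁ x₂)) (PH D τ) x₁ x₂ i true (lRt D i x₁) true (rRt D i x₂)
      (fun x => if x = x0 ∧ s < i then κ else a) (fun x => if x = x0 ∧ s < i then κ else 1 / 2)
      b c a a (str x0 s κ (aH D (push τ i x₁ x₂) a b c)) (str x0 s κ (aH D τ a b c)) := by
  have W := wtH H S a b c
  have h0 := S.x0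
  have h12 := S.x12
  have hq' := S.xq
  have hL := step_left H S
  have hR := step_right H S
  -- the string in the strip
  have key : ∀ x, x₁ ≤ x → x < x₂ → x = x0 → (i + 1 ≤ s ∨ s < i) := by
    rintro x h1 h2 rfl
    rw [push_in h1 h2, S.tau x h1 h2] at h
    exact h
  have kl : x₁ - 1 = x0 → i + 1 ≤ s := by
    rintro rfl
    obtain ⟨k1, k2⟩ := hL (by omega)
    omega
  have kr : x₂ = x0 → i + 1 ≤ s := by
    rintro rfl
    obtain ⟨k1, k2⟩ := hR (by omega)
    omega
  have nl : ∀ α : ℤ × ℤ → ℂ, str x0 s κ α (x₁ - 1, i) = α (x₁ - 1, i) := fun α =>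
    str_no (fun g => by have g1 := g.1; have g2 := g.2; simp only at g1 g2; have := kl g1; omega)
  have nr : ∀ α : ℤ × ℤ → ℂ, str x0 s κ α (x₂, i) = α (x₂, i) := fun α =>
    str_no (fun g => by have g1 := g.1; have g2 := g.2; simp only at g1 g2; have := kr g1; omega)
  -- the two rows of the strip
  have kk : ∀ (α : ℤ × ℤ → ℂ) (v : ℂ) (x y : ℤ), x₁ ≤ x → x < x₂ → (y = i ∨ y = i - 1) →
      α (x, y) = v → str x0 s κ α (x, y) = if x = x0 ∧ s < i then κ else v := by
    intro α v x y h1 h2 hy hv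
    by_cases g : x = x0
    · rcases key x h1 h2 g with h3 | h3
      · rw [str_no (fun g' => by have := g'.2; simp only at this; omega), if_neg (by omega), hv]
      · rw [str_of g (by simp only; omega), if_pos ⟨g, h3⟩]
    · rw [str_no (fun g' => g g'.1), if_neg (fun g' => g g'.1), hv]
  refine ⟨?_, ?_, ?_, ?_, ?_, ?_, ?_, ?_, ?_, ?_, ?_, ?_, ?_⟩
  · exact fun x h1 h2 => kk _ _ x i h1 h2 (Or.inl rfl) (W.reg1 x h1 h2)
  · exact fun x h1 h2 => kk _ _ x (i - 1) h1 h2 (Or.inr rfl) (W.reg2 x h1 h2)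
  · exact fun x h1 h2 => kk _ _ x (i - 1) h1 h2 (Or.inr rfl) (W.row1 x h1 h2)
  · exact fun x h1 h2 => kk _ _ x i h1 h2 (Or.inl rfl) (W.row2 x h1 h2)
  · intro h1 h2; rw [nl]; exact W.l1 h1 h2
  · intro h1 h2; rw [nl, nl]; exact W.l1r h1 h2
  · intro h; exact absurd h (by simp)
  · intro h; exact absurd h (by simp)
  · intro h1 h2; rw [nr]; exact W.r1 h1 h2
  · intro h1 h2; rw [nr, nr]; exact W.r1r h1 h2
  · intro h; exact absurd h (by simp)
  · intro h; exact absurd h (by simp)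
  · intro q h1 h2 h3 h4 h5
    have := W.out q h1 h2 h3 h4 h5
    by_cases g : q.1 = x0 ∧ s ≤ q.2
    · rw [str_of g.1 g.2, str_of g.1 g.2]
    · rw [str_no g, str_no g, this]

/-- the conditions on the weights of the table `wtS` -/
theorem cwS_str {u ζ : ℂ} (hu : Complex.sin (2 * u) ≠ 0) (hζ : Pool.Agent.H11.W.Fz ζ) (x₁ x₂ x0 s i : ℤ) :
    CwS x₁ x₂ (fun x => if x = x0 ∧ s < i then 1 - ζ else Pool.Agent.H64.Q1.wa u)
      (fun x => if x = x0 ∧ s < i then 1 - ζ else 1 / 2)
      (Pool.Agent.H64.Q1.wa (u + Real.pi / 2)) (Pool.Agent.H64.Q1.wa (u - Real.pi / 2)) := by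
  refine CwS.nat_frz hu fun x _ _ => ?_
  by_cases h : x = x0 ∧ s < i
  · exact Or.inr ⟨ζ, hζ, if_pos h, if_pos h⟩
  · exact Or.inl ⟨if_neg h, if_neg h⟩

/-- the conditions on the weights of the table `wtH` -/
theorem cwS_nat {u : ℂ} (hu : Complex.sin (2 * u) ≠ 0) (x₁ x₂ : ℤ) :
    CwS x₁ x₂ (fun _ => Pool.Agent.H64.Q1.wa u) (fun _ => 1 / 2)
      (Pool.Agent.H64.Q1.wa (u + Real.pi / 2)) (Pool.Agent.H64.Q1.wa (u - Real.pi / 2)) :=
  CwS.nat_frz hu fun _ _ _ => Or.inl ⟨rfl, rfl⟩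

/-! ### The environments of a step -/

/-- **The configuration of a step**, from the states. -/
theorem cfgH (O : HOut D) (H : HPos D τ) (S : HStep D τ i x₁ x₂) {lR cL rR cR : Bool}
    (St : Strip (sto (D.EH (push τ i x₁ x₂)) (D.WH (push τ i x₁ x₂) O.Wo))
      (sto (D.EH τ) (D.WH τ O.Wo)) x₁ x₂ i true lR cL true rR cR) :
    Cfg (HWin.XH O (push τ i x₁ x₂)) (HWin.XH O τ) (D.WH (push τ i x₁ x₂) O.Wo) (D.WH τ O.Wo)
      (PH D (push τ i x₁ x₂)) (PH D τ) x₁ x₂ i (x₂ - x₁).toNat true lR cL true rR cR where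
  I1 := isEnv_XH O _
  I2 := isEnv_XH O _
  e1 := EH_mem (S.pos H)
  e2 := EH_mem H
  S := St
  hw := by have := S.x12; omega
  T1 := tilesH O (S.pos H)
  T2 := tilesH O H

/-- **The increments of a step**, with a string. -/
theorem inc_step (O : HOut D) (H : HPos D τ) (S : HStep D τ i x₁ x₂) {cL cR : Bool}
    (St : Strip (sto (D.EH (push τ i x₁ x₂)) (D.WH (push τ i x₁ x₂) O.Wo))
      (sto (D.EH τ) (D.WH τ O.Wo)) x₁ x₂ i true (lRt D i x₁) cL true (rRt D i x₂) cR)
    {u ζ : ℂ} (hu : Complex.sin (2 * u) ≠ 0) (hζ : Pool.Agent.H11.W.Fz ζ) {x0 s : ℤ}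
    (hp : D.p ≤ x0) (hq : x0 < D.q) (hs : D.a x0 ≤ s) (h : τ x0 ≤ s ∨ s < push τ i x₁ x₂ x0)
    {z0 : End} (hz0 : ce z0.1 z0.2 = O.c0) (hi : inq z0.1 z0.2 = false)
    (hY : Yk (Kb x₁ x₂ i cL cR) z0) {z z' : End} {δ : ℤ}
    (hE : Ends (sto (D.EH (push τ i x₁ x₂)) (D.WH (push τ i x₁ x₂) O.Wo))
      (sto (D.EH τ) (D.WH τ O.Wo)) x₁ x₂ i true (lRt D i x₁) cL true (rRt D i x₂) cR z z' δ) :
    (HWin.XH O τ).incW (opw (str x0 s (1 - ζ) (aH D τ (Pool.Agent.H64.Q1.wa u)
        (Pool.Agent.H64.Q1.wa (u + Real.pi / 2)) (Pool.Agent.H64.Q1.wa (u - Real.pi / 2)))))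
        (ce z'.1 z'.2) =
      zt ^ (6 * (ty (ce z'.1 z'.2) - ty (ce z.1 z.2)) + 2 * δ) *
      (HWin.XH O (push τ i x₁ x₂)).incW (opw (str x0 s (1 - ζ) (aH D (push τ i x₁ x₂)
        (Pool.Agent.H64.Q1.wa u) (Pool.Agent.H64.Q1.wa (u + Real.pi / 2))
        (Pool.Agent.H64.Q1.wa (u - Real.pi / 2))))) (ce z.1 z.2) :=
  strip_incW (cfgH O H S St) (cwS_str hu hζ x₁ x₂ x0 s i)
    (wtS H S _ _ _ hp hq hs h) (hasW_opw _ _) (hasW_opw _ _) rfl rfl hz0 hz0 hi hY hE

end step

end Pool.Agent.H34.W
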