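import Pool.Agent.H34.W.LinG
import Pool.Agent.H60.W.LevR

set_option autoImplicit false
open Finset

/-! # Number of the real frozen tiles of the line on the left arc

`notF_L`, `notF_F`, `notF_C` : a layer tile between two layer tiles of the same kind, all colours equal,
belongs to a tie. `LoI D G` : the left over tiles, `card_LoI`. `card_ZF` : at most `8 |G| + 8` real frozen
tiles, `G` : levels of the window (`Lev` of helper60). -/

namespace Pool.Agent.H34.W.Lin

open Pool.Agent.H33.Q1 (lt)
open Pool.Agent.H54.W (Win Pos)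
open Pool.Agent.H54.W.Win
open Pool.Agent.H42.Sp (Sd Ix kt rt)
open Pool.Agent.H74.R45 (exists_lt)
open Pool.Agent.H72.W.N hiding TA mem_TA TB mem_TB
open Pool.Agent.H60.W.N (Lev)

variable {D : Win} {p : Bool} {x y : ℤ} {G : Finset ℤ} {k : Bool}

/-- the two tiles of a tie are not frozen -/
lemma notF_tie {i : Ix} (hi : CA D p i) (h : kt i = (x, y) ∨ rt i = (x, y)) : ¬ FRt D p x y := by
  rintro ⟨-, h1, h2⟩
  rcases h with h | h
  · exact h1 ⟨i, hi, h⟩
  · exact h2 ⟨i, hi, h⟩

lemma par_cases (z : ℤ) (k : Bool) : (z % 2 = 1 ↔ k = true) ∨ ((z + 1) % 2 = 1 ↔ k = true) := by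
  cases k
  · rcases Int.emod_two_eq_zero_or_one z with h | h
    · exact Or.inl ⟨fun h2 => by omega, fun h2 => by simp at h2⟩
    · exact Or.inr ⟨fun h2 => by omega, fun h2 => by simp at h2⟩
  · rcases Int.emod_two_eq_zero_or_one z with h | h
    · exact Or.inr ⟨fun _ => rfl, fun _ => by omega⟩
    · exact Or.inl ⟨fun _ => rfl, fun _ => h⟩

/-- a straight part of a left column -/
theorem notF_L (h0 : LyA D p .L x (y - 1)) (h1 : LyA D p .L x y) (h2 : LyA D p .L x (y + 1))
    (hc : ∀ v, y - 1 ≤ v → v ≤ y + 1 → natc D p x v = k ∧ natc D p (x - 1) v = k) :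
    ¬ FRt D p x y := by
  have c0 := hc (y - 1) le_rfl (by omega)
  have c1 := hc y (by omega) (by omega)
  have c2 := hc (y + 1) (by omega) le_rfl
  rcases par_cases (x + y) k with hp | hp
  · refine notF_tie (i := (.L, (x, y))) ⟨h0, h1, ?_, ?_, ?_, ?_⟩ ?_
    · rw [c1.1]; exact hp
    · rw [c1.2]; exact hp
    · rw [c0.1]; exact hp
    · rw [c0.2]; exact hp
    · unfold kt rt
      simp only
      split_ifs
      · exact Or.inl rfl
      · exact Or.inr rfl
  · rw [add_assoc] at hp
    refine notF_tie (i := (.L, (x, y + 1))) ⟨?_, h2, ?_, ?_, ?_, ?_⟩ ?_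
    · rw [add_sub_cancel_right]; exact h1
    · rw [c2.1]; exact hp
    · rw [c2.2]; exact hp
    · rw [add_sub_cancel_right, c1.1]; exact hp
    · rw [add_sub_cancel_right, c1.2]; exact hp
    · unfold kt rt
      simp only [add_sub_cancel_right]
      split_ifs
      · exact Or.inr rfl
      · exact Or.inl rfl

/-- a straight part of a floor -/
theorem notF_F (h0 : LyA D p .F (x - 1) y) (h1 : LyA D p .F x y) (h2 : LyA D p .F (x + 1) y)
    (hc : ∀ u, x - 1 ≤ u → u ≤ x + 1 → natc D p u y = k ∧ natc D p u (y - 1) = k) :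
    ¬ FRt D p x y := by
  have c0 := hc (x - 1) le_rfl (by omega)
  have c1 := hc x (by omega) (by omega)
  have c2 := hc (x + 1) (by omega) le_rfl
  rcases par_cases (x + y) k with hp | hp
  · refine notF_tie (i := (.F, (x, y))) ⟨h0, h1, ?_, ?_, ?_, ?_⟩ ?_
    · rw [c1.1]; exact hp
    · rw [c0.1]; exact hp
    · rw [c1.2]; exact hp
    · rw [c0.2]; exact hp
    · unfold kt rt
      simp only
      split_ifs
      · exact Or.inl rfl
      · exact Or.inr rfl
  · rw [add_right_comm] at hp
    refine notF_tie (i := (.F, (x + 1, y))) ⟨?_, h2, ?_, ?_, ?_, ?_⟩ ?_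
    · rw [add_sub_cancel_right]; exact h1
    · rw [c2.1]; exact hp
    · rw [add_sub_cancel_right, c1.1]; exact hp
    · rw [c2.2]; exact hp
    · rw [add_sub_cancel_right, c1.2]; exact hp
    · unfold kt rt
      simp only [add_sub_cancel_right]
      split_ifs
      · exact Or.inr rfl
      · exact Or.inl rfl

/-- a straight part of a ceiling -/
theorem notF_C (h0 : LyA D p .C (x - 1) y) (h1 : LyA D p .C x y) (h2 : LyA D p .C (x + 1) y)
    (hc : ∀ u, x - 1 ≤ u → u ≤ x + 1 → natc D p u y = k ∧ natc D p u (y + 1) = k) :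
    ¬ FRt D p x y := by
  have c0 := hc (x - 1) le_rfl (by omega)
  have c1 := hc x (by omega) (by omega)
  have c2 := hc (x + 1) (by omega) le_rfl
  rcases par_cases (x + y) k with hp | hp
  · have hp' : (x + 1 + (y + 1)) % 2 = 1 ↔ k = true := by
      rw [← hp]; omega
    refine notF_tie (i := (.C, (x + 1, y + 1))) ⟨?_, ?_, ?_, ?_, ?_, ?_⟩ ?_
    · rw [add_sub_cancel_right, add_sub_cancel_right]; exact h1
    · rw [add_sub_cancel_right]; exact h2
    · rw [c2.2]; exact hp'
    · rw [add_sub_cancel_right, c1.2]; exact hp'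
    · rw [add_sub_cancel_right, c2.1]; exact hp'
    · rw [add_sub_cancel_right, add_sub_cancel_right, c1.1]; exact hp'
    · unfold kt rt
      simp only [add_sub_cancel_right]
      split_ifs
      · exact Or.inl rfl
      · exact Or.inr rfl
  · rw [add_assoc] at hp
    refine notF_tie (i := (.C, (x, y + 1))) ⟨?_, ?_, ?_, ?_, ?_, ?_⟩ ?_
    · rw [add_sub_cancel_right]; exact h0
    · rw [add_sub_cancel_right]; exact h1
    · rw [c1.2]; exact hp
    · rw [c0.2]; exact hp
    · rw [add_sub_cancel_right, c1.1]; exact hp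
    · rw [add_sub_cancel_right, c0.1]; exact hp
    · unfold kt rt
      simp only [add_sub_cancel_right]
      split_ifs
      · exact Or.inr rfl
      · exact Or.inl rfl

/-! ### Left over tiles -/

/-- rows next to a level -/
noncomputable def SrI (G : Finset ℤ) : Finset ℤ :=
  (G ×ˢ Icc (-2 : ℤ) 1).image fun q => q.1 + q.2

lemma mem_SrI {g j : ℤ} (hg : g ∈ G) (h1 : -2 ≤ j) (h2 : j ≤ 1) : g + j ∈ SrI G :=
  mem_image.2 ⟨(g, j), mem_product.2 ⟨hg, mem_Icc.2 ⟨h1, h2⟩⟩, rfl⟩

/-- the left over tiles -/
noncomputable def LoI (D : Win) (G : Finset ℤ) : Finset (ℤ × ℤ) :=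
  (SrI G).image (fun y => (D.a y - 1, y)) ∪
  (G.image (fun z => (D.a z, z - 1)) ∪ G.image (fun z => (D.a (z - 1) - 2, z - 1)) ∪
  (G.image (fun z => (D.a (z - 1), z)) ∪ G.image (fun z => (D.a z - 2, z))) ∪
  {(D.a 0, -1), (D.w - 1, -1), (D.a (D.h - 1), D.h), (D.w - 1, D.h)})

theorem card_LoI : (LoI D G).card ≤ 8 * G.card + 4 := by
  have h1 : ((SrI G).image fun y => (D.a y - 1, y)).card ≤ 4 * G.card := by
    refine card_image_le.trans ?_
    unfold SrI
    refine card_image_le.trans ?_
    rw [card_product, Int.card_Icc]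
    have : (1 + 1 - (-2 : ℤ)).toNat = 4 := rfl
    rw [this]
    omega
  have h2 : (G.image fun z => (D.a z, z - 1)).card ≤ G.card := card_image_le
  have h3 : (G.image fun z => (D.a (z - 1) - 2, z - 1)).card ≤ G.card := card_image_le
  have h4 : (G.image fun z => (D.a (z - 1), z)).card ≤ G.card := card_image_le
  have h5 : (G.image fun z => (D.a z - 2, z)).card ≤ G.card := card_image_le
  have h6 : ({(D.a 0, -1), (D.w - 1, -1), (D.a (D.h - 1), D.h), (D.w - 1, D.h)} :
      Finset (ℤ × ℤ)).card ≤ 4 := card_le_four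
  unfold LoI
  refine (card_union_le _ _).trans ?_
  have k1 := card_union_le (G.image (fun z => (D.a z, z - 1)) ∪
    G.image (fun z => (D.a (z - 1) - 2, z - 1)) ∪
    (G.image (fun z => (D.a (z - 1), z)) ∪ G.image (fun z => (D.a z - 2, z))))
    {(D.a 0, -1), (D.w - 1, -1), (D.a (D.h - 1), D.h), (D.w - 1, D.h)}
  have k2 := card_union_le (G.image (fun z => (D.a z, z - 1)) ∪
    G.image (fun z => (D.a (z - 1) - 2, z - 1)))
    (G.image (fun z => (D.a (z - 1), z)) ∪ G.image (fun z => (D.a z - 2, z)))
  have k3 := card_union_le (G.image (fun z => (D.a z, z - 1)))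
    (G.image (fun z => (D.a (z - 1) - 2, z - 1)))
  have k4 := card_union_le (G.image (fun z => (D.a (z - 1), z)))
    (G.image (fun z => (D.a z - 2, z)))
  omega

/-- **Real frozen tiles are left over tiles.** -/
theorem frozen_LoI (hG : Lev D G) (hE : D.InE D.a x y) (hF : FRt D false x y) :
    (x, y) ∈ LoI D G := by
  have hh := D.hh
  have g0 := hG.zero
  have gh := hG.h
  by_contra hc
  unfold LoI at hc
  simp only [mem_union, not_or, mem_insert, mem_singleton] at hc
  obtain ⟨n1, ⟨⟨n2, n3⟩, n4, n5⟩, n6, n7, n8, n9⟩ := hc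
  rcases hE with ⟨h1, h2, h3, h4⟩ | ⟨h1, h2, h3, h4⟩ | ⟨h1, h2, h3, h4⟩ | ⟨h1, h2, h3⟩ | ⟨h1, h2, h3⟩
  · -- the column
    have hx : x = D.a y - 1 := by
      by_contra hx
      exact hF.1.2 (inPF.2 ⟨h1, h2, by omega, h4⟩)
    have hS : y ∉ SrI G := fun h => n1 (mem_image.2 ⟨y, h, by rw [hx]⟩)
    have hn : ∀ z, y - 1 ≤ z → z ≤ y + 2 → z ∉ G := fun z k1 k2 h => hS (by
      have := mem_SrI h (j := y - z) (by omega) (by omega)
      rwa [add_sub_cancel] at this)
    have y2 : 2 ≤ y := by
      by_contra hc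
      exact hn 0 (by omega) (by omega) g0
    have y3 : y + 2 < D.h := by
      by_contra hc
      exact hn D.h (by omega) (by omega) gh
    have a1 := hG.a (y - 1) (by omega) (by omega) (hn _ (by omega) (by omega))
    have a2 := hG.a y (by omega) (by omega) (hn _ (by omega) (by omega))
    have a3 := hG.a (y + 1) (by omega) (by omega) (hn _ (by omega) (by omega))
    have a4 := hG.a (y + 2) (by omega) (by omega) (hn _ (by omega) (by omega))
    rw [show y - 1 - 1 = y - 2 by ring] at a1
    rw [show y + 1 - 1 = y by ring] at a3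
    rw [show y + 2 - 1 = y + 1 by ring] at a4
    have c1 := D.scl (y - 1) (by omega) (by omega) (by rw [sub_add_cancel]; omega)
    have c2 := D.scl y (by omega) (by omega) (by omega)
    rw [sub_add_cancel] at c1
    refine notF_L (k := D.cl y) ?_ ?_ ?_ (fun v v1 v2 => ?_) hF
    · unfold LyA LyP
      simp only [sh_false, add_zero]
      refine ⟨by omega, by omega, by omega, fun _ => ?_, fun _ => ?_⟩
      · rw [show y - 1 - 1 = y - 2 by ring]; omega
      · rw [sub_add_cancel]; omega
    · unfold LyA LyP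
      simp only [sh_false, add_zero]
      exact ⟨by omega, by omega, by omega, fun _ => by omega, fun _ => by omega⟩
    · unfold LyA LyP
      simp only [sh_false, add_zero]
      refine ⟨by omega, by omega, by omega, fun _ => ?_, fun _ => ?_⟩
      · rw [add_sub_cancel_right]; omega
      · rw [show y + 1 + 1 = y + 2 by ring]; omega
    · have av : D.a v = D.a y := by
        rcases (show v = y - 1 ∨ v = y ∨ v = y + 1 by omega) with r | r | r <;> rw [r] <;> omega
      have cv : D.cl v = D.cl y := by
        rcases (show v = y - 1 ∨ v = y ∨ v = y + 1 by omega) with r | r | r <;> rw [r]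
        · exact c1
        · exact c2.symm
      constructor
      · rw [natc_def, if_neg (by omega), if_neg (by omega), if_pos (by omega), cv]
      · rw [natc_def, if_neg (by omega), if_neg (by omega), if_pos (by omega), cv]
  · -- ceiling of the row below
    have aw := D.aw y (by omega) h2
    have hgy : y ∈ G := by
      by_contra hg
      have := hG.a y h1 h2 hg
      omega
    have e1 : x ≠ D.a (y - 1) := fun h => n4 (mem_image.2 ⟨y, hgy, by rw [h]⟩)
    have e2 : x ≠ D.a y - 2 := fun h => n5 (mem_image.2 ⟨y, hgy, by rw [h]⟩)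
    have hr := rise_rng (D := D) (Y := y) (by omega) h2 (by omega)
    have hr2 := rise_hi (D := D) (Y := y) (by omega) h2 (by omega) (Z := y + 1) (by omega) (by omega)
    have hcl := D.cup (y - 1) (by omega) (by omega) (by rw [sub_add_cancel]; omega)
    rw [sub_add_cancel, show y - 1 + 2 = y + 1 by ring] at hcl
    have ly : ∀ u, x - 1 ≤ u → u ≤ x + 1 → LyA D false .C u y := fun u u1 u2 => by
      unfold LyA LyP
      simp only [sh_false, add_zero]
      exact ⟨by omega, by omega, by omega, by omega, fun _ => by omega⟩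
    refine notF_C (k := D.cl y) (ly _ le_rfl (by omega)) (ly _ (by omega) (by omega))
      (ly _ (by omega) le_rfl) (fun u u1 u2 => ⟨?_, ?_⟩) hF
    · rw [natc_def, if_neg (by omega), if_neg (by omega), if_pos (by omega)]
    · rw [natc_def, if_neg (by omega), if_neg (by omega), if_pos (by omega), hcl]
  · -- floor of the row above
    have aw := D.aw y h1 (by omega)
    have hgy : y + 1 ∈ G := by
      by_contra hg
      have := hG.a (y + 1) (by omega) h2 hg
      rw [add_sub_cancel_right] at this
      omega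
    have e1 : x ≠ D.a (y + 1) := fun h => n2 (mem_image.2 ⟨y + 1, hgy, by
      rw [h, add_sub_cancel_right]⟩)
    have e2 : x ≠ D.a y - 2 := fun h => n3 (mem_image.2 ⟨y + 1, hgy, by
      rw [h, add_sub_cancel_right]⟩)
    have hr := drop_rng (D := D) (Y := y) (by omega) h2 (by omega)
    have hr2 := drop_lo (D := D) (Y := y) (by omega) h2 (by omega) (Z := y - 1) (by omega) (by omega)
    have hcl := D.cdn y (by omega) (by omega) (by omega)
    have ly : ∀ u, x - 1 ≤ u → u ≤ x + 1 → LyA D false .F u y := fun u u1 u2 => by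
      unfold LyA LyP
      simp only [sh_false, add_zero]
      exact ⟨by omega, by omega, by omega, by omega, fun _ => by omega⟩
    refine notF_F (k := D.cl y) (ly _ le_rfl (by omega)) (ly _ (by omega) (by omega))
      (ly _ (by omega) le_rfl) (fun u u1 u2 => ⟨?_, ?_⟩) hF
    · rw [natc_def, if_neg (by omega), if_neg (by omega), if_pos (by omega)]
    · rw [natc_def, if_neg (by omega), if_neg (by omega), if_pos (by omega), hcl]
  · -- below the window
    have aw := D.aw 0 le_rfl (by omega)
    have e1 : x ≠ D.a 0 := fun h => n6 (by rw [h, h1])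
    have e2 : x ≠ D.w - 1 := fun h => n7 (by rw [h, h1])
    have ly : ∀ u, x - 1 ≤ u → u ≤ x + 1 → LyA D false .F u y := fun u u1 u2 => by
      unfold LyA LyP
      simp only [sh_false, add_zero]
      have e : y + 1 = 0 := by omega
      rw [e]
      exact ⟨by omega, by omega, by omega, by omega, fun _ => by omega⟩
    refine notF_F (k := D.cb) (ly _ le_rfl (by omega)) (ly _ (by omega) (by omega))
      (ly _ (by omega) le_rfl) (fun u u1 u2 => ⟨?_, ?_⟩) hF
    · rw [natc_def, if_pos (by omega)]
    · rw [natc_def, if_pos (by omega)]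
  · -- above the window
    have aw := D.aw (D.h - 1) (by omega) (by omega)
    have e1 : x ≠ D.a (D.h - 1) := fun h => n8 (by rw [h, h1])
    have e2 : x ≠ D.w - 1 := fun h => n9 (by rw [h, h1])
    have ly : ∀ u, x - 1 ≤ u → u ≤ x + 1 → LyA D false .C u y := fun u u1 u2 => by
      unfold LyA LyP
      simp only [sh_false, add_zero]
      rw [h1]
      exact ⟨by omega, by omega, by omega, by omega, fun _ => by omega⟩
    refine notF_C (k := D.ct) (ly _ le_rfl (by omega)) (ly _ (by omega) (by omega))
      (ly _ (by omega) le_rfl) (fun u u1 u2 => ⟨?_, ?_⟩) hF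
    · rw [natc_def, if_neg (by omega), if_pos (by omega)]
    · rw [natc_def, if_neg (by omega), if_pos (by omega)]

/-- **Number of the real frozen tiles.** -/
theorem card_ZF (hG : Lev D G) : (ZF D).card ≤ 8 * G.card + 4 := by
  refine le_trans ?_ (card_LoI (D := D) (G := G))
  have hsub : ZF D ⊆ (LoI D G).image lt := by
    intro e he
    obtain ⟨x, y, rfl⟩ := exists_lt (odd_FR (mem_inter.1 he).1)
    obtain ⟨h1, h2⟩ := mem_ZF.1 he
    exact mem_image_of_mem _ (frozen_LoI hG h2 h1)
  exact (card_le_card hsub).trans card_image_le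

end Pool.Agent.H34.W.Lin
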