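import Pool.Agent.H34.W.TieT
import Pool.Agent.H49.W.TieVal

set_option autoImplicit false
open Finset

/-! # The line on the left arc as a mean of tied natural environments

World `p = false`, position `τ = D.a` of the true window `D`. `WJ_nat` : colours off the line. `near_a` : the
random tiles are in `P` or near it. `frz O S` : the states of the frozen tiles, if the real ones of them have
the states `S`. `EJ_sets`, `WJ_sets` : the sets. `ly_line` : the layer tiles of the left arc are straight tiles of
the line. `slI a b c s` : weight of the ties of the kind `s`. `line_I` : **the line on the left arc** for an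
arbitrary functional which does not see dangling labels at the ties of the left arc. -/

namespace Pool.Agent.H34.W.Lin

open Pool.Agent.H75.Perc hiding ET mem_ET
open Pool.Agent.H75.TwoArm Pool.Agent.Q1 Pool.Agent.H33.Q1
open Pool.Agent.H69.Q1 Pool.Agent.H13.Q1 Pool.Agent.H39.Q1
open Pool.Agent.H54.W (Win Out Pos)
open Pool.Agent.H54.W.Win
open Pool.Agent.H42.Sp (Sd Ix kt rt kt_odd rt_even kt_Tg rt_Tg cap_of OTp)
open Pool.Agent.H13.R45 (ev gp ev_true ev_false Tg)
open Pool.Agent.H74.R45 (exists_lt)
open Pool.Agent.H72.W.N hiding TA mem_TA TB mem_TB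
open Pool.Agent.H49.W (Leaf qJ_col qJ_RE qJ_RW qJ_RB qJ_RT qJ_bulk wal_odd wal_even)
open Pool.Agent.H62.W
open Pool.Agent.H42.W (VF)
open Pool.Agent.H15.W (TotV)

variable {D : Win} {x y : ℤ} {τ : ℤ → ℤ} {S : Finset (ℤ × ℤ)} {Φ : Finset (ℤ × ℤ) → ℂ}
  {q : ℤ × ℤ → ℂ} {a b c : ℂ}

/-- the line on the left arc -/
lemma posA (D : Win) : Pos D D.a where
  lo _ _ _ := le_rfl
  hi y h0 h1 := by have := D.aw y h0 h1; omega
  up _ _ _ _ := rfl
  dn _ _ _ _ := rfl

/-! ### Colours off the line -/

/-- a tile of the large box which is not on the line has its natural colour -/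
theorem WJ_nat (O : OutB D) {p : Bool} (hB : InB D x y) (hE : ¬ D.InE τ x y) (hA : ¬ D.TA τ x y)
    (hT : ¬ D.TB τ x y) : lt (x, y) ∈ D.WJ τ O.out.Wo ↔ natc D p x y = true := by
  unfold Win.WJ
  rw [mem_union, Win.mem_WR, OutB.out_Wo, mem_union, mem_FB]
  have e : natc D p x y = D.fill x y := rfl
  have e2 : fillc D x y = D.fill x y := rfl
  rw [e, e2]
  have hO : D.InO τ x y ↔ D.InZ x y ∧ D.fill x y = true := by
    unfold InO
    tauto
  rw [hO]
  constructor
  · rintro (h | h | h)
    · exact h.2
    · exact h.2.2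
    · exact absurd hB (O.far x y h)
  · intro h
    by_cases hZ : D.InZ x y
    · exact Or.inl ⟨hZ, h⟩
    · exact Or.inr (Or.inl ⟨hB, hZ, h⟩)

/-- random tiles are not open -/
lemma InE_not_WJ (O : OutB D) (H : Pos D τ) (h : D.InE τ x y) : lt (x, y) ∉ D.WJ τ O.out.Wo := by
  intro h2
  exact disjoint_left.1 (disj_EW τ O.out) ((mem_EJ H).2 h) h2

/-! ### The line on the left arc is near `P` -/

lemma nearF {x' y' : ℤ} (h : InP D false x' y') (h1 : x - 1 ≤ x') (h2 : x' ≤ x + 1) (h3 : y - 1 ≤ y')
    (h4 : y' ≤ y + 1) : NearP D (x + sh false) y := by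
  obtain ⟨k1, k2, k3, k4⟩ := h
  simp only [sh_false, add_zero] at k3 k4 ⊢
  exact ⟨y', by omega, by omega, k1, k2, by omega, by omega⟩

lemma inPF : InP D false x y ↔ 0 ≤ y ∧ y < D.h ∧ D.a y ≤ x ∧ x < D.w := by
  unfold InP
  simp only [sh_false, add_zero]

/-- random tiles are in `P` or near it -/
theorem near_a (h : D.InE D.a x y) : NearP D (x + sh false) y := by
  have hh := D.hh
  rcases h with ⟨h1, h2, h3, h4⟩ | ⟨h1, h2, h3, h4⟩ | ⟨h1, h2, h3, h4⟩ | ⟨h1, h2, h3⟩ | ⟨h1, h2, h3⟩
  · have := D.aw y h1 h2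
    rcases eq_or_lt_of_le h3 with h5 | h5
    · exact nearF (x' := x + 1) (y' := y) (inPF.2 ⟨h1, h2, by omega, by omega⟩) (by omega) (by omega)
        (by omega) (by omega)
    · exact nearF (x' := x) (y' := y) (inPF.2 ⟨h1, h2, by omega, by omega⟩) (by omega) (by omega)
        (by omega) (by omega)
  · have := D.aw y (by omega) h2
    exact nearF (x' := x) (y' := y - 1) (inPF.2 ⟨by omega, by omega, by omega, by omega⟩) (by omega)
      (by omega) (by omega) (by omega)
  · have := D.aw y h1 (by omega)
    exact nearF (x' := x) (y' := y + 1) (inPF.2 ⟨by omega, by omega, by omega, by omega⟩) (by omega)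
      (by omega) (by omega) (by omega)
  · exact nearF (x' := x) (y' := 0) (inPF.2 ⟨by omega, by omega, by omega, by omega⟩) (by omega)
      (by omega) (by omega) (by omega)
  · exact nearF (x' := x) (y' := D.h - 1) (inPF.2 ⟨by omega, by omega, by omega, by omega⟩) (by omega)
      (by omega) (by omega) (by omega)

/-- the turn tiles are near `P` -/
lemma nearTA (h : D.TA D.a x y) : NearP D (x + sh false) y := by
  have hh := D.hh
  rcases h with ⟨h1, h2, h3, h4⟩ | ⟨h1, h2⟩
  · have := D.aw (y - 1) (by omega) (by omega)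
    exact nearF (x' := x + 1) (y' := y - 1) (inPF.2 ⟨by omega, by omega, by omega, by omega⟩)
      (by omega) (by omega) (by omega) (by omega)
  · have := D.aw (D.h - 1) (by omega) (by omega)
    exact nearF (x' := x + 1) (y' := D.h - 1) (inPF.2 ⟨by omega, by omega, by omega, by omega⟩)
      (by omega) (by omega) (by omega) (by omega)

lemma nearTB (h : D.TB D.a x y) : NearP D (x + sh false) y := by
  have hh := D.hh
  rcases h with ⟨h1, h2, h3, h4⟩ | ⟨h1, h2⟩
  · have := D.aw (y + 1) (by omega) (by omega)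
    exact nearF (x' := x + 1) (y' := y + 1) (inPF.2 ⟨by omega, by omega, by omega, by omega⟩)
      (by omega) (by omega) (by omega) (by omega)
  · have := D.aw 0 le_rfl (by omega)
    exact nearF (x' := x + 1) (y' := 0) (inPF.2 ⟨by omega, by omega, by omega, by omega⟩)
      (by omega) (by omega) (by omega) (by omega)

/-- tiles of `P` are random -/
lemma inE_P (h : InP D false x y) : D.InE D.a x y := by
  obtain ⟨h1, h2, h3, h4⟩ := inPF.1 h
  exact Or.inl ⟨h1, h2, by omega, h4⟩

/-! ### The layer tiles of the left arc -/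

/-- weight of {W-N, S-E} on the straight tiles next to a wall of the kind `s` -/
def wlI (a b c : ℂ) : Sd → ℂ
  | .L => a
  | .R => 0
  | .F => 1 - b
  | .C => 1 - c

/-- **the layer tiles of the left arc are straight tiles of the line** -/
theorem ly_line {s : Sd} (hs : s ≠ .R) (h : LyA D false s x y) :
    D.InE D.a x y ∧ D.qJ D.a a b c (lt (x, y)) = wal x y (wlI a b c s) := by
  have hh := D.hh
  unfold LyA at h
  simp only [sh_false, add_zero] at h
  cases s
  · obtain ⟨h1, h2, h3, h4, h5⟩ := h
    have := D.aw y h1 h2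
    refine ⟨Or.inl ⟨h1, h2, by omega, by omega⟩, ?_⟩
    exact qJ_col h1 h2 (by omega) (fun h => h4 (by omega)) h5
  · exact absurd rfl hs
  · obtain ⟨h1, h2, h3, h4, h5⟩ := h
    rcases lt_or_ge y 0 with c0 | c0
    · have e : y = -1 := by omega
      subst e
      refine ⟨Or.inr (Or.inr (Or.inr (Or.inl ⟨rfl, by simpa using h3, h4⟩))), qJ_RB c0⟩
    · have h6 : D.RW D.a x y := ⟨c0, h2, h3, by have := h5 c0; omega⟩
      exact ⟨Or.inr (Or.inr (Or.inl h6)), qJ_RW (posA D) h6⟩
  · obtain ⟨h1, h2, h3, h4, h5⟩ := h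
    rcases lt_or_ge y D.h with c0 | c0
    · have h6 : D.RE D.a x y := ⟨by omega, c0, h3, by have := h5 c0; omega⟩
      exact ⟨Or.inr (Or.inl h6), qJ_RE (posA D) h6⟩
    · have e : y = D.h := by omega
      subst e
      exact ⟨Or.inr (Or.inr (Or.inr (Or.inr ⟨rfl, h3, h4⟩))), qJ_RT le_rfl⟩

/-- the right column is not random -/
lemma R_not_InE (h : LyA D false .R x y) : ¬ D.InE D.a x y := by
  intro h2
  have h3 := h2.z (posA D)
  obtain ⟨-, -, h4⟩ := h
  simp only [sh_false, add_zero] at h4
  omega

/-! ### The sets -/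

/-- the states of the frozen tiles, if the real ones have the states `S` -/
noncomputable def frz (O : OutB D) (S : Finset (ℤ × ℤ)) : Finset (ℤ × ℤ) :=
  FR D false ∩ (S ∪ D.WJ D.a O.out.Wo)

lemma frz_sub (O : OutB D) (S : Finset (ℤ × ℤ)) : frz O S ⊆ FR D false := inter_subset_left

/-- the real frozen tiles -/
noncomputable def ZF (D : Win) : Finset (ℤ × ℤ) := FR D false ∩ D.EJ D.a

lemma mem_ZF : lt (x, y) ∈ ZF D ↔ FRt D false x y ∧ D.InE D.a x y := by
  unfold ZF
  rw [mem_inter, mem_FR, mem_EJ (posA D)]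

/-- a tile at a left tie is random -/
lemma inT_E (h : InT (Tlf D false) x y) : D.InE D.a x y := by
  obtain ⟨k, k1, k2⟩ := h
  obtain ⟨hk, hR⟩ := mem_Tlf.1 k1
  rcases k2 with k2 | k2
  · have := CA.kt_ly hk
    rw [k2] at this
    exact (ly_line (a := 0) (b := 0) (c := 0) hR this).1
  · have := CA.rt_ly hk
    rw [k2] at this
    exact (ly_line (a := 0) (b := 0) (c := 0) hR this).1

/-- a tile at a tie which is random is at a left tie -/
lemma inT_left (h : InT (CAs D false) x y) (hE : D.InE D.a x y) : InT (Tlf D false) x y := by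
  obtain ⟨k, k1, k2⟩ := h
  have hk := mem_CAs.1 k1
  refine ⟨k, mem_Tlf.2 ⟨hk, fun hR => ?_⟩, k2⟩
  have hl : LyA D false .R x y := by
    rw [← hR]
    rcases k2 with k2 | k2
    · have := CA.kt_ly hk
      rwa [k2] at this
    · have := CA.rt_ly hk
      rwa [k2] at this
  exact R_not_InE hl hE

/-- **random labels** -/
theorem EJ_sets : D.EJ D.a \ ZF D = ET D false (Tlf D false) := by
  ext e
  constructor
  · intro he
    obtain ⟨h1, h2⟩ := mem_sdiff.1 he
    obtain ⟨x, y, rfl⟩ := exists_lt (odd_EJ h1)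
    rw [mem_ZF] at h2
    rw [mem_EJ (posA D)] at h1
    rw [mem_ET]
    by_cases hP : InP D false x y
    · exact Or.inl hP
    · exact Or.inr (inT_left (inT_of_ring ⟨near_a h1, hP⟩ fun h => h2 ⟨h, h1⟩) h1)
  · intro he
    obtain ⟨x, y, rfl⟩ := exists_lt (odd_ET he)
    rw [mem_ET] at he
    rw [mem_sdiff, mem_EJ (posA D), mem_ZF]
    rcases he with h | h
    · exact ⟨inE_P h, fun h2 => h2.1.1.2 h⟩
    · exact ⟨inT_E h, fun h2 => h.not_FRt Tlf_CA h2.1⟩

/-- **open labels** -/
theorem WJ_sets (O : OutB D) (hS : S ⊆ ZF D) :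
    D.WJ D.a O.out.Wo ∪ S = WT O false (Tlf D false) (frz O S) := by
  have hSo : ∀ e ∈ S, e ∈ FR D false ∧ e ∈ D.EJ D.a := fun e he => mem_inter.1 (hS he)
  have odd_WJ : ∀ e ∈ D.WJ D.a O.out.Wo, e ∈ GB D ∨ e ∈ O.Wo := by
    intro e he
    unfold Win.WJ at he
    rw [mem_union, OutB.out_Wo, mem_union] at he
    rcases he with h | h | h
    · exact Or.inl (GA_sub_GB (WR_sub h))
    · exact Or.inl (FB_sub h)
    · exact Or.inr h
  have Wo_sub : ∀ e ∈ O.Wo, e ∈ D.WJ D.a O.out.Wo := by
    intro e he
    unfold Win.WJ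
    rw [mem_union, OutB.out_Wo, mem_union]
    exact Or.inr (Or.inr he)
  -- tiles of the large box
  have key : ∀ x y, InB D x y → (lt (x, y) ∈ D.WJ D.a O.out.Wo ∪ S ↔
      lt (x, y) ∈ WT O false (Tlf D false) (frz O S)) := by
    intro x y hB
    have hWo : lt (x, y) ∉ O.Wo := fun h => O.far x y h hB
    have hSm : lt (x, y) ∈ S → FRt D false x y ∧ D.InE D.a x y := fun h =>
      ⟨mem_FR.1 (hSo _ h).1, (mem_EJ (posA D)).1 (hSo _ h).2⟩
    rw [mem_union, mem_WT]
    unfold frz
    rw [mem_inter, mem_FR, mem_union]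
    by_cases hP : InP D false x y
    · have h1 := InE_not_WJ O (posA D) (inE_P hP)
      have h2 : ¬ FRt D false x y := fun h => h.1.2 hP
      have h3 : lt (x, y) ∉ S := fun h => h2 (hSm h).1
      constructor
      · rintro (h | h)
        · exact absurd h h1
        · exact absurd h h3
      · rintro (h | h | h)
        · exact absurd hP h.2.1
        · exact absurd h.1 h2
        · exact absurd h hWo
    by_cases hR : FRt D false x y
    · constructor
      · rintro (h | h)
        · exact Or.inr (Or.inl ⟨hR, Or.inr h⟩)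
        · exact Or.inr (Or.inl ⟨hR, Or.inl h⟩)
      · rintro (h | h | h)
        · exact absurd hR h.2.2.1
        · exact h.2.symm
        · exact absurd h hWo
    by_cases hT : InT (Tlf D false) x y
    · have h1 := InE_not_WJ O (posA D) (inT_E hT)
      constructor
      · rintro (h | h)
        · exact absurd h h1
        · exact absurd (hSm h).1 hR
      · rintro (h | h | h)
        · exact absurd hT h.2.2.2.1
        · exact absurd h.1 hR
        · exact absurd h hWo
    · -- natural tiles
      have hE : ¬ D.InE D.a x y := fun h =>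
        hT (inT_left (inT_of_ring ⟨near_a h, hP⟩ hR) h)
      have hna : ¬ D.TA D.a x y ∧ ¬ D.TB D.a x y := by
        have aux : ∀ hn : NearP D (x + sh false) y, ∃ s, LyA D false s x y := fun hn => by
          obtain ⟨s, hs⟩ := (inT_of_ring ⟨hn, hP⟩ hR).ly (fun k hk => mem_CAs.1 hk)
          exact ⟨s, hs⟩
        constructor
        · intro h
          obtain ⟨s, hs⟩ := aux (nearTA h)
          have h2 := h.not_InE (posA D)
          by_cases hsR : s = .R
          · subst hsR
            have h3 := h.z (posA D)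
            obtain ⟨-, -, h4⟩ := hs
            simp only [sh_false, add_zero] at h4
            omega
          · exact h2 (ly_line (a := 0) (b := 0) (c := 0) hsR hs).1
        · intro h
          obtain ⟨s, hs⟩ := aux (nearTB h)
          have h2 := h.not_InE (posA D)
          by_cases hsR : s = .R
          · subst hsR
            have h3 := h.z (posA D)
            obtain ⟨-, -, h4⟩ := hs
            simp only [sh_false, add_zero] at h4
            omega
          · exact h2 (ly_line (a := 0) (b := 0) (c := 0) hsR hs).1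
      have hn := WJ_nat O (p := false) hB hE hna.1 hna.2
      rw [hn]
      constructor
      · rintro (h | h)
        · exact Or.inl ⟨hB, hP, hR, hT, h⟩
        · exact absurd (hSm h).1 hR
      · rintro (h | h | h)
        · exact Or.inl h.2.2.2.2
        · exact absurd h.1 hR
        · exact absurd h hWo
  ext e
  constructor
  · intro he
    by_cases hG : e ∈ GB D
    · obtain ⟨x, y, rfl⟩ := exists_lt (odd_TB hG)
      exact (key x y (mem_GB.1 hG)).1 he
    · unfold WT
      rw [mem_union, mem_union]
      rcases mem_union.1 he with h | h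
      · exact Or.inr ((odd_WJ e h).resolve_left hG)
      · obtain ⟨x, y, rfl⟩ := exists_lt (odd_FR (hSo e h).1)
        exact absurd (mem_GB.2 (mem_FR.1 (hSo _ h).1).1.inB) hG
  · intro he
    by_cases hG : e ∈ GB D
    · obtain ⟨x, y, rfl⟩ := exists_lt (odd_TB hG)
      exact (key x y (mem_GB.1 hG)).2 he
    · unfold WT at he
      rw [mem_union, mem_union] at he
      rcases he with (h | h) | h
      · exact absurd (TB_sub h) hG
      · obtain ⟨x, y, rfl⟩ := exists_lt (odd_FR (frz_sub O S h))
        exact absurd (mem_GB.2 (mem_FR.1 (frz_sub O S h)).1.inB) hG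
      · exact mem_union_left _ (Wo_sub e h)

end Pool.Agent.H34.W.Lin
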