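import Pool.Agent.H49.W.CapF

set_option autoImplicit false
open Finset

/-! # Means over few labels, frozen labels, leaves

`Ec_freeze` : sum over the states of some labels first. `Ec_ign` : the weights of labels which `F` ignores do
not matter. `B2`, `Ec_near` : a complex mean over few labels is close to the values. `leaf_str` : leaves of a
functional with inner sums (string); `leaf_sum`, `leaf_union`. -/

namespace Pool.Agent.H34.W.Lin

open Pool.Agent.Q1 Pool.Agent.H75.Perc Pool.Agent.H75.TwoArm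
open Pool.Agent.H75.Four Pool.Agent.H13.Q1
open Pool.Agent.H49.W (Leaf)

variable {E W Z R : Finset (ℤ × ℤ)} {q q' : ℤ × ℤ → ℂ} {F : Finset (ℤ × ℤ) → ℂ}

/-! ### Frozen labels -/

/-- **Sum over the states of the labels of `Z` first.** -/
theorem Ec_freeze (hZ : Z ⊆ E) : Ec q E (fun ω => F (ω ∪ W)) =
    Ec q Z (fun S => Ec q (E \ Z) (fun ω => F (ω ∪ (W ∪ S)))) := by
  rw [Ec_split q hZ]
  refine Ec_congr fun S _ => Ec_congr fun ω _ => ?_
  congr 1
  ext e
  simp only [mem_union]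
  tauto

/-- `F` ignores the labels of `R` -/
def Ign (F : Finset (ℤ × ℤ) → ℂ) (R : Finset (ℤ × ℤ)) : Prop := ∀ G, F (G \ R) = F G

lemma Ign.eq (h : Ign F R) {G G' : Finset (ℤ × ℤ)} (hG : G \ R = G' \ R) : F G = F G' := by
  rw [← h G, hG, h G']

lemma Ign.union (h : Ign F R) (W : Finset (ℤ × ℤ)) : Ign (fun G => F (G ∪ W)) R := by
  intro G
  refine h.eq ?_
  ext e
  simp only [mem_sdiff, mem_union]
  tauto

lemma Ign.insert (h : Ign F R) {e : ℤ × ℤ} (he : e ∈ R) (G : Finset (ℤ × ℤ)) :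
    F (insert e G) = F G := by
  refine h.eq ?_
  ext x
  simp only [mem_sdiff, mem_insert]
  constructor
  · rintro ⟨h1 | h1, h2⟩
    · rw [h1] at h2; exact absurd he h2
    · exact ⟨h1, h2⟩
  · exact fun h1 => ⟨Or.inr h1.1, h1.2⟩

/-- **The weights of ignored labels do not matter.** -/
theorem Ec_ign (h : Ign F R) (hq : ∀ e ∈ E, e ∉ R → q e = q' e) : Ec q E F = Ec q' E F := by
  induction E using Finset.induction_on generalizing F with
  | empty => rw [Ec_empty, Ec_empty]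
  | insert e E he ih =>
    have h1 : ∀ x ∈ E, x ∉ R → q x = q' x := fun x hx => hq x (mem_insert_of_mem hx)
    have h2 : Ign (fun G => F (insert e G)) R := by
      intro G
      refine h.eq ?_
      ext x
      simp only [mem_sdiff, mem_insert]
      tauto
    rw [Ec_insert q he, Ec_insert q' he, ih h h1, ih h2 h1]
    by_cases hR : e ∈ R
    · have e1 : (fun ω => F (insert e ω)) = F := by
        funext ω; exact h.insert hR ω
      rw [e1]
      ring
    · rw [hq e (mem_insert_self _ _) hR]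

/-- ignored labels may be dropped -/
theorem Ec_drop (h : Ign F R) : Ec q E F = Ec q (E \ R) F := by
  have e1 : E = (E \ R) ∪ (E ∩ R) := by
    ext x
    simp only [mem_union, mem_sdiff, mem_inter]
    tauto
  have hd : Disjoint (E \ R) (E ∩ R) := by
    rw [disjoint_left]
    intro x h1 h2
    exact (mem_sdiff.1 h1).2 (mem_inter.1 h2).2
  conv_lhs => rw [e1]
  rw [Ec_union q hd]
  refine Ec_congr fun ω _ => ?_
  have : ∀ ω' ⊆ E ∩ R, F (ω ∪ ω') = F ω := by
    intro ω' hω'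
    refine h.eq ?_
    ext x
    simp only [mem_sdiff, mem_union]
    constructor
    · rintro ⟨h1 | h1, h2⟩
      · exact ⟨h1, h2⟩
      · exact absurd (mem_inter.1 (hω' h1)).2 h2
    · exact fun h1 => ⟨Or.inl h1.1, h1.2⟩
  rw [Ec_congr (G := fun _ => F ω) this, Ec_const]

/-! ### Means over few labels -/

/-- a weight and its complement are at most `2` -/
def B2 (w : ℂ) : Prop := ‖w‖ ≤ 2 ∧ ‖1 - w‖ ≤ 2

lemma B2.sym {w : ℂ} (h : B2 w) : B2 (1 - w) := ⟨h.2, by rw [sub_sub_cancel]; exact h.1⟩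

lemma B2.of_one {w : ℂ} (h : ‖w‖ ≤ 1) : B2 w := by
  refine ⟨by linarith, (norm_sub_le _ _).trans ?_⟩
  rw [norm_one]; linarith

lemma B2.mul {w v : ℂ} (h : ‖w‖ ≤ 1) (h' : ‖v‖ ≤ 1) : B2 (w * v) :=
  B2.of_one (by rw [norm_mul]; exact mul_le_one₀ h (norm_nonneg _) h')

/-- complex means over few labels -/
theorem Ec_near {q : ℤ × ℤ → ℂ} {Z : Finset (ℤ × ℤ)} (hq : ∀ e ∈ Z, B2 (q e)) {ζ : ℂ} {B : ℝ} :
    ∀ {f : Finset (ℤ × ℤ) → ℂ}, (∀ S ⊆ Z, ‖f S - ζ‖ ≤ B) → ‖Ec q Z f - ζ‖ ≤ 4 ^ Z.card * B := by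
  classical
  induction Z using Finset.induction_on with
  | empty =>
    intro f hf
    rw [Ec_empty, card_empty, pow_zero, one_mul]
    exact hf ∅ (subset_refl _)
  | insert e Z he ih =>
    intro f hf
    have ih' := @ih fun e' h' => hq e' (mem_insert_of_mem h')
    have h1 := ih' (f := f) fun S hS => hf S (hS.trans (subset_insert _ _))
    have h2 := ih' (f := fun S => f (insert e S)) fun S hS => hf _ (insert_subset_insert _ hS)
    have hB := hq e (mem_insert_self _ _)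
    rw [Ec_insert q he]
    have e1 : (1 - q e) * Ec q Z f + q e * Ec q Z (fun S => f (insert e S)) - ζ =
        (1 - q e) * (Ec q Z f - ζ) + q e * (Ec q Z (fun S => f (insert e S)) - ζ) := by ring
    rw [e1, card_insert_of_notMem he]
    refine (norm_add_le _ _).trans ?_
    rw [norm_mul, norm_mul]
    have p0 : 0 ≤ (4 : ℝ) ^ Z.card * B := (norm_nonneg _).trans h1
    calc ‖1 - q e‖ * ‖Ec q Z f - ζ‖ + ‖q e‖ * ‖Ec q Z (fun S => f (insert e S)) - ζ‖
        ≤ 2 * (4 ^ Z.card * B) + 2 * (4 ^ Z.card * B) :=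
          add_le_add (mul_le_mul hB.2 h1 (norm_nonneg _) (by norm_num))
            (mul_le_mul hB.1 h2 (norm_nonneg _) (by norm_num))
      _ = 4 ^ (Z.card + 1) * B := by ring

/-! ### Functionals with inner sums -/

/-- the label `e` is at `v` -/
def AtV (o : Bool) (v e : ℤ × ℤ) : Prop :=
  (o = true ∧ ∃ x, vx x = v ∧ lab x = e) ∨ (o = false ∧ ∃ x, fi x = v ∧ lab x = e)

/-- the sum over the states of some labels (string) which are not at `v` -/
theorem leaf_str {o : Bool} {v : ℤ × ℤ} (h : Leaf F o v) (hv : ∀ e ∈ R, ¬ AtV o v e)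
    (q : ℤ × ℤ → ℂ) : Leaf (fun G => Ec q R (fun ρ => F (G ∪ ρ))) o v where
  op ho G c hc hl hx := by
    refine Ec_congr fun ρ hρ => ?_
    have hn : ∀ x, vx x = v → lab x ∉ ρ := fun x h1 h2 => hv _ (hρ h2) (Or.inl ⟨ho, x, h1, rfl⟩)
    rw [insert_union]
    exact h.op ho (G ∪ ρ) c hc (fun h2 => (mem_union.1 h2).elim hl (hn c hc))
      fun x h1 h2 => (mem_union.1 h2).elim (hx x h1) (hn x h1)
  cl ho G c hc hl hx := by
    refine Ec_congr fun ρ hρ => ?_
    have hn : ∀ x, fi x = v → lab x ∉ ρ := fun x h1 h2 => hv _ (hρ h2) (Or.inr ⟨ho, x, h1, rfl⟩)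
    rw [insert_union]
    exact h.cl ho (G ∪ ρ) c hc (fun h2 => (mem_union.1 h2).elim hl (hn c hc))
      fun x h1 h2 => hx x h1 fun h3 => h2 (mem_union_left _ h3)

/-- finite sums -/
theorem leaf_sum {κ : Type*} {o : Bool} {v : ℤ × ℤ} {K : Finset κ} {g : κ → ℂ}
    {Fk : κ → Finset (ℤ × ℤ) → ℂ} (h : ∀ k ∈ K, Leaf (Fk k) o v) :
    Leaf (fun G => ∑ k ∈ K, g k * Fk k G) o v where
  op ho G c hc hl hx := sum_congr rfl fun k hk => by rw [(h k hk).op ho G c hc hl hx]
  cl ho G c hc hl hx := sum_congr rfl fun k hk => by rw [(h k hk).cl ho G c hc hl hx]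

/-- fixed labels away from `v` -/
theorem leaf_union {o : Bool} {v : ℤ × ℤ} (h : Leaf F o v) (hv : ∀ e ∈ R, ¬ AtV o v e) :
    Leaf (fun G => F (G ∪ R)) o v where
  op ho G c hc hl hx := by
    have hn : ∀ x, vx x = v → lab x ∉ R := fun x h1 h2 => hv _ h2 (Or.inl ⟨ho, x, h1, rfl⟩)
    rw [insert_union]
    exact h.op ho (G ∪ R) c hc (fun h2 => (mem_union.1 h2).elim hl (hn c hc))
      fun x h1 h2 => (mem_union.1 h2).elim (hx x h1) (hn x h1)
  cl ho G c hc hl hx := by
    have hn : ∀ x, fi x = v → lab x ∉ R := fun x h1 h2 => hv _ h2 (Or.inr ⟨ho, x, h1, rfl⟩)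
    rw [insert_union]
    exact h.cl ho (G ∪ R) c hc (fun h2 => (mem_union.1 h2).elim hl (hn c hc))
      fun x h1 h2 => hx x h1 fun h3 => h2 (mem_union_left _ h3)

end Pool.Agent.H34.W.Lin
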