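import Pool.Agent.H62.W.TotN
import Pool.Agent.H42.Sp.TieEnv
import Pool.Agent.H72.W.NRef
import Pool.Agent.H34.W.LinA

set_option autoImplicit false
open Finset

/-! # The functional of chart I: only the ties of `Tr`, everything else natural

`Tlf D p` : the tie points of the left arc (the tie points of `refD D p`). `TTr Tr` : the kept labels. For a
finset `Tr` of tie points of the true window `D`: `WTr O p Tr S` : open labels if the tiles off `P^p`, off the
frozen tiles (states `S`) and off the ties of `Tr` have their natural colours, `FTr Φ O p Tr S` : the functional of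
the labels of `P^p` and of the kept labels. `ties_T` : arbitrary weights. `totT` : everything tied off the ties
of `T ⊆ Tr`. `totNT` : the natural totals. Only the leaves at the ties of `Tr` are needed. -/

namespace Pool.Agent.H34.W.Lin

open Pool.Agent.H75.Perc hiding ET mem_ET
open Pool.Agent.H75.TwoArm Pool.Agent.Q1 Pool.Agent.H33.Q1
open Pool.Agent.H69.Q1 Pool.Agent.H13.Q1 Pool.Agent.H39.Q1
open Pool.Agent.H54.W (Win Out)
open Pool.Agent.H42.Sp (Sd Ix kt rt kt_odd rt_even kt_Tg rt_Tg cap_of OTp)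
open Pool.Agent.H13.R45 (ev gp ev_true ev_false Tg)
open Pool.Agent.H74.R45 (exists_lt)
open Pool.Agent.H72.W.N
open Pool.Agent.H49.W (Leaf Ec_ties)
open Pool.Agent.H62.W
open Pool.Agent.H42.W (VF)
open Pool.Agent.H15.W (TotV Tot0V)
open Pool.Agent.Q1.M6e (Ec_opn Ec_det)

variable {D : Win} {p : Bool} {x y : ℤ} {O : OutB D} {Tr T : Finset Ix} {S : Finset (ℤ × ℤ)}
  {Φ : Finset (ℤ × ℤ) → ℂ} {q q' : ℤ × ℤ → ℂ}

/-! ### Definitions -/

/-- the tie points of the left arc -/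
noncomputable def Tlf (D : Win) (p : Bool) : Finset Ix := (CAs D p).filter fun k => k.1 ≠ .R

lemma mem_Tlf {k : Ix} : k ∈ Tlf D p ↔ CA D p k ∧ k.1 ≠ .R := by
  unfold Tlf; rw [mem_filter, mem_CAs]

lemma Tlf_CA : ∀ k ∈ Tlf D p, CA D p k := fun _ h => (mem_Tlf.1 h).1

/-- they are the tie points of the reference window -/
lemma mem_Tlf_ref {k : Ix} : k ∈ Tlf D p ↔ CA (refD D p) p k := by
  rw [mem_Tlf]
  obtain ⟨s, g⟩ := k
  constructor
  · rintro ⟨h1, h2⟩; exact (CA_ref h2 g).2 h1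
  · intro h
    have hs : s ≠ .R := by rintro rfl; exact not_CA_R _ h
    exact ⟨(CA_ref hs g).1 h, hs⟩

/-- the kept labels -/
noncomputable def TTr (Tr : Finset Ix) : Finset (ℤ × ℤ) := Tr.image fun k => lt (kt k)

lemma mem_TTr {e : ℤ × ℤ} : e ∈ TTr Tr ↔ ∃ k ∈ Tr, lt (kt k) = e := by
  unfold TTr; rw [mem_image]

lemma kt_TTr {k : Ix} (h : k ∈ Tr) : lt (kt k) ∈ TTr Tr := mem_TTr.2 ⟨k, h, rfl⟩

lemma odd_TTr {e : ℤ × ℤ} (he : e ∈ TTr Tr) : (e.1 + e.2) % 2 = 1 := by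
  obtain ⟨k, -, rfl⟩ := mem_TTr.1 he
  exact lt_odd _

/-- the kept labels of the left arc are the ties of the reference window -/
theorem TTr_Tlf : TTr (Tlf D p) = TA (refD D p) p := by
  ext e
  rw [mem_TTr, mem_TA_CA]
  constructor
  · rintro ⟨k, h1, h2⟩; exact ⟨k, mem_Tlf_ref.1 h1, h2⟩
  · rintro ⟨k, h1, h2⟩; exact ⟨k, mem_Tlf_ref.2 h1, h2⟩

/-- open labels: the ties of `Tr`, everything else natural, frozen tiles `S` -/
noncomputable def WTr {D : Win} (O : OutB D) (p : Bool) (Tr : Finset Ix) (S : Finset (ℤ × ℤ)) :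
    Finset (ℤ × ℤ) := WT O p Tr S ∪ OTp Tr

/-- **The functional of chart I.** -/
noncomputable def FTr (Φ : Finset (ℤ × ℤ) → ℂ) {D : Win} (O : OutB D) (p : Bool) (Tr : Finset Ix)
    (S : Finset (ℤ × ℤ)) : Finset (ℤ × ℤ) → ℂ := fun w => Φ (w ∪ WTr O p Tr S)

/-- removed open labels -/
lemma mem_OT' {e : ℤ × ℤ} : e ∈ OTp Tr ↔ ∃ k ∈ Tr, ev k.2 = true ∧ lt (rt k) = e := by
  unfold OTp
  rw [mem_image]
  simp only [mem_filter]
  exact ⟨fun ⟨k, h1, h2⟩ => ⟨k, h1.1, h1.2, h2⟩, fun ⟨k, h1, h2, h3⟩ => ⟨k, ⟨h1, h2⟩, h3⟩⟩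

lemma mem_WTr : lt (x, y) ∈ WTr O p Tr S ↔ (InB D x y ∧ ¬ InP D p x y ∧ ¬ FRt D p x y ∧
    ¬ InT Tr x y ∧ natc D p x y = true) ∨ lt (x, y) ∈ S ∨ lt (x, y) ∈ O.Wo ∨
    ∃ k ∈ Tr, ev k.2 = true ∧ rt k = (x, y) := by
  unfold WTr
  rw [mem_union, mem_WT, mem_OT']
  constructor
  · rintro ((h | h | h) | ⟨k, h1, h2, h3⟩)
    · exact Or.inl h
    · exact Or.inr (Or.inl h)
    · exact Or.inr (Or.inr (Or.inl h))
    · exact Or.inr (Or.inr (Or.inr ⟨k, h1, h2, lt_inj h3⟩))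
  · rintro (h | h | h | ⟨k, h1, h2, h3⟩)
    · exact Or.inl (Or.inl h)
    · exact Or.inl (Or.inr (Or.inl h))
    · exact Or.inl (Or.inr (Or.inr h))
    · exact Or.inr ⟨k, h1, h2, by rw [h3]⟩

/-! ### The ties -/

/-- the caps -/
theorem cap_T (O : OutB D) (hT : ∀ k ∈ Tr, CA D p k) (hS : S ⊆ FR D p) {k : Ix} (hk : k ∈ Tr) :
    Cap (ET D p Tr) (WT O p Tr S) (ev k.2) (gp k.2) (lt (kt k)) (lt (rt k)) := by
  obtain ⟨⟨f1, c1⟩, f2, c2⟩ := CA.ut (hT k hk)
  obtain ⟨b1, b2⟩ := CA.ut_inB (hT k hk)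
  obtain ⟨n1, w1⟩ := fill_WT (O := O) hT hS b1 f1
  obtain ⟨n2, w2⟩ := fill_WT (O := O) hT hS b2 f2
  refine cap_of (c := natc D p (ut1 k).1 (ut1 k).2) (kt_Tg k) (rt_Tg k) (kt_ne_rt k k) ?_ ?_
    (tg_all k) n1 w1 n2 ?_ c1
  · exact mem_ET.2 (Or.inr ⟨k, hk, Or.inl rfl⟩)
  · exact mem_ET.2 (Or.inr ⟨k, hk, Or.inr rfl⟩)
  · exact w2.trans (c2.symm.trans c1)

lemma ET_sdiffT (hT : ∀ k ∈ Tr, CA D p k) :
    ET D p Tr \ Tr.image (fun k => lt (rt k)) = EN D p ∪ TTr Tr := by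
  ext e
  constructor
  · intro he
    obtain ⟨h1, h2⟩ := mem_sdiff.1 he
    unfold ET at h1
    rw [mem_union, mem_union] at h1
    rw [mem_union]
    rcases h1 with h | h | h
    · exact Or.inl h
    · exact Or.inr h
    · exact absurd h h2
  · intro he
    rw [mem_sdiff]
    rcases mem_union.1 he with h | h
    · refine ⟨mem_union_left _ h, fun h2 => ?_⟩
      obtain ⟨k, k1, rfl⟩ := mem_image.1 h2
      exact (CA.rt_ly (hT k k1)).out (mem_EN.1 h)
    · refine ⟨mem_union_right _ (mem_union_left _ h), fun h2 => ?_⟩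
      obtain ⟨k, k1, rfl⟩ := mem_image.1 h2
      obtain ⟨l, -, l2⟩ := mem_TTr.1 h
      exact kt_ne_rt l k (lt_inj l2)

/-- **The tied form, only the ties of `Tr`**, arbitrary weights. -/
theorem ties_T (hT : ∀ k ∈ Tr, CA D p k) (hS : S ⊆ FR D p)
    (hF : ∀ k ∈ Tr, Leaf Φ (ev k.2) (gp k.2)) (h1 : ∀ e ∈ EN D p, q' e = q e)
    (h2 : ∀ k ∈ Tr, q' (lt (kt k)) = mg (ev k.2) (q (lt (kt k))) (q (lt (rt k)))) :
    Ec q' (EN D p ∪ TTr Tr) (FTr Φ O p Tr S) =
      Ec q (ET D p Tr) (fun ω => Φ (ω ∪ WT O p Tr S)) := by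
  rw [← ET_sdiffT hT]
  unfold FTr WTr OTp
  refine Ec_ties Tr (fun k => ev k.2) (fun k => gp k.2) (fun k => lt (kt k))
    (fun k => lt (rt k)) (fun k hk => cap_T O hT hS hk) hF
    (disj_ETW hT hS) (fun k hk l hl hne => ⟨fun h => hne (CA.kt_inj (hT k hk) (hT l hl) (lt_inj h)),
      fun h => kt_ne_rt k l (lt_inj h), fun h => hne (CA.rt_inj (hT k hk) (hT l hl) (lt_inj h))⟩)
    h2 (fun e he hn => ?_)
  obtain ⟨x, y, rfl⟩ := exists_lt (odd_ET he)
  rcases mem_ET.1 he with h | ⟨k, k1, k2 | k2⟩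
  · exact h1 _ (mem_EN.2 h)
  · exact absurd (by rw [k2]) (hn k k1).1
  · exact absurd (by rw [k2]) (hn k k1).2

/-- **Everything tied off the ties of `T ⊆ Tr`.** -/
theorem totT (hT : ∀ k ∈ Tr, CA D p k) (hTT : T ⊆ Tr) (hS : S ⊆ FR D p)
    (hF : ∀ k ∈ Tr, Leaf Φ (ev k.2) (gp k.2)) (h1 : ∀ e ∈ EN D p, q' e = q e)
    (h2 : ∀ k ∈ T, q' (lt (kt k)) = mg (ev k.2) (q (lt (kt k))) (q (lt (rt k))))
    (h3 : ∀ k ∈ Tr, k ∉ T → q' (lt (kt k)) = if ev k.2 = true then 0 else 1) :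
    Ec q' (EN D p ∪ TTr Tr) (FTr Φ O p Tr S) =
      Ec q (ET D p T) (fun ω => Φ (ω ∪ WT O p T S)) := by
  classical
  -- the deterministic tiles
  set U := Tr \ T with hU
  have hUC : ∀ k ∈ U, CA D p k := fun k h => hT k (mem_sdiff.1 h).1
  have hTC : ∀ k ∈ T, CA D p k := fun k h => hT k (hTT h)
  set Dt : Finset (ℤ × ℤ) := (U.image (fun k => lt (kt k)) ∪ U.image fun k => lt (rt k)) with hDt
  have mDt : ∀ x y, lt (x, y) ∈ Dt ↔ InT U x y := by
    intro x y
    rw [hDt, mem_union, mem_image, mem_image]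
    constructor
    · rintro (⟨k, k1, k2⟩ | ⟨k, k1, k2⟩)
      · exact ⟨k, k1, Or.inl (lt_inj k2)⟩
      · exact ⟨k, k1, Or.inr (lt_inj k2)⟩
    · rintro ⟨k, k1, k2 | k2⟩
      · exact Or.inl ⟨k, k1, by rw [k2]⟩
      · exact Or.inr ⟨k, k1, by rw [k2]⟩
  have oDt : ∀ e ∈ Dt, (e.1 + e.2) % 2 = 1 := by
    intro e he
    rw [hDt, mem_union, mem_image, mem_image] at he
    rcases he with ⟨k, -, rfl⟩ | ⟨k, -, rfl⟩ <;> exact lt_odd _
  have sep : ∀ x y, InT U x y → ¬ InT T x y := by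
    rintro x y ⟨k, k1, k2⟩ ⟨l, l1, l2⟩
    have hk := hUC k k1
    have hl := hTC l l1
    have hne : k ≠ l := fun h => (mem_sdiff.1 k1).2 (h ▸ l1)
    rcases k2 with k2 | k2 <;> rcases l2 with l2 | l2
    · exact hne (CA.kt_inj hk hl (k2.trans l2.symm))
    · exact kt_ne_rt k l (k2.trans l2.symm)
    · exact kt_ne_rt l k (l2.trans k2.symm)
    · exact hne (CA.rt_inj hk hl (k2.trans l2.symm))
  have spl : ∀ x y, InT Tr x y ↔ InT T x y ∨ InT U x y := by
    intro x y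
    constructor
    · rintro ⟨k, k1, k2⟩
      by_cases hk : k ∈ T
      · exact Or.inl ⟨k, hk, k2⟩
      · exact Or.inr ⟨k, mem_sdiff.2 ⟨k1, hk⟩, k2⟩
    · rintro (⟨k, k1, k2⟩ | ⟨k, k1, k2⟩)
      · exact ⟨k, hTT k1, k2⟩
      · exact ⟨k, (mem_sdiff.1 k1).1, k2⟩
  set q2 : ℤ × ℤ → ℂ := fun e => if e ∈ Dt then (if natc D p (tt e).1 (tt e).2 = true then 1 else 0)
    else q e with hq2
  have hdis : Disjoint (ET D p T) Dt := by
    rw [disjoint_left]
    intro e he he'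
    obtain ⟨x, y, rfl⟩ := exists_lt (odd_ET he)
    rw [mDt] at he'
    rcases mem_ET.1 he with h | h
    · obtain ⟨s, h'⟩ := he'.ly hUC
      exact h'.out h
    · exact sep x y he' h
  have hunion : ET D p Tr = ET D p T ∪ Dt := by
    ext e
    rw [mem_union]
    constructor
    · intro he
      obtain ⟨x, y, rfl⟩ := exists_lt (odd_ET he)
      rw [mem_ET, spl] at he
      rw [mem_ET, mDt]
      tauto
    · rintro (he | he)
      · obtain ⟨x, y, rfl⟩ := exists_lt (odd_ET he)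
        rw [mem_ET] at he
        rw [mem_ET, spl]
        tauto
      · obtain ⟨x, y, rfl⟩ := exists_lt (oDt e he)
        rw [mDt] at he
        rw [mem_ET, spl]
        tauto
  have nin : ∀ k ∈ T, lt (kt k) ∉ Dt ∧ lt (rt k) ∉ Dt := by
    intro k hk
    constructor
    · intro h
      have h' := (mDt (kt k).1 (kt k).2).1 h
      exact sep _ _ h' ⟨k, hk, Or.inl rfl⟩
    · intro h
      have h' := (mDt (rt k).1 (rt k).2).1 h
      exact sep _ _ h' ⟨k, hk, Or.inr rfl⟩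
  have key := ties_T (O := O) (q := q2) (q' := q') hT hS hF (fun e he => ?_) (fun k hk => ?_)
  · rw [key, hunion, Ec_union q2 hdis]
    have e1 : ∀ ω, ω ⊆ ET D p T → Ec q2 Dt (fun ω' => Φ (ω ∪ ω' ∪ WT O p Tr S)) =
        Φ (ω ∪ WT O p T S) := by
      intro ω hω
      rw [Pool.Agent.Q1.M6e.Ec_det (O := Dt.filter fun e => natc D p (tt e).1 (tt e).2 = true)
        (filter_subset _ _)]
      · congr 1
        rw [union_assoc]
        congr 1
        ext e
        constructor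
        · intro he
          rcases mem_union.1 he with h | h
          · obtain ⟨h4, h5⟩ := mem_filter.1 h
            obtain ⟨x, y, rfl⟩ := exists_lt (oDt e h4)
            rw [mDt] at h4
            rw [tt_lt] at h5
            obtain ⟨s, h'⟩ := h4.ly hUC
            exact mem_WT.2 (Or.inl ⟨h4.inB hUC, h'.out, h4.not_FRt hUC, sep x y h4, h5⟩)
          · unfold WT at h ⊢
            rw [mem_union, mem_union] at h ⊢
            rcases h with (h | h) | h
            · obtain ⟨x, y, rfl⟩ := exists_lt (odd_TB h)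
              obtain ⟨b, h4, h5, h6, h7⟩ := mem_TB.1 h
              refine Or.inl (Or.inl (mem_TB.2 ⟨b, h4, h5, fun h8 => h6 ((spl x y).2 (Or.inl h8)), h7⟩))
            · exact Or.inl (Or.inr h)
            · exact Or.inr h
        · intro he
          unfold WT at he
          rw [mem_union, mem_union] at he
          rw [mem_union]
          unfold WT
          rw [mem_union, mem_union]
          rcases he with (h | h) | h
          · obtain ⟨x, y, rfl⟩ := exists_lt (odd_TB h)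
            obtain ⟨b, h4, h5, h6, h7⟩ := mem_TB.1 h
            by_cases h8 : InT U x y
            · refine Or.inl (mem_filter.2 ⟨(mDt x y).2 h8, ?_⟩)
              rw [tt_lt]; exact h7
            · refine Or.inr (Or.inl (Or.inl (mem_TB.2 ⟨b, h4, h5, fun h9 => ?_, h7⟩)))
              rcases (spl x y).1 h9 with h9 | h9
              · exact h6 h9
              · exact h8 h9
          · exact Or.inr (Or.inl (Or.inr h))
          · exact Or.inr (Or.inr h)
      · intro e he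
        obtain ⟨h4, h5⟩ := mem_filter.1 he
        rw [hq2]
        simp only
        rw [if_pos h4, if_pos h5]
      · intro e he he'
        rw [hq2]
        simp only
        rw [if_pos he, if_neg fun h5 => he' (mem_filter.2 ⟨he, h5⟩)]
    rw [Ec_congr fun ω hω => e1 ω hω]
    exact Ec_congr_q (fun e he => by
      rw [hq2]
      simp only
      rw [if_neg fun h => disjoint_left.1 hdis he h]) _
  · have h4 : e ∉ Dt := fun h => by
      obtain ⟨x, y, rfl⟩ := exists_lt (odd_EN he)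
      rw [mDt] at h
      obtain ⟨s, h'⟩ := h.ly hUC
      exact h'.out (mem_EN.1 he)
    rw [hq2]
    simp only
    rw [if_neg h4]
    exact h1 e he
  · by_cases hkT : k ∈ T
    · obtain ⟨n1, n2⟩ := nin k hkT
      rw [hq2]
      simp only
      rw [if_neg n1, if_neg n2]
      exact h2 k hkT
    · have hkU : k ∈ U := mem_sdiff.2 ⟨hk, hkT⟩
      have m1 : lt (kt k) ∈ Dt := (mDt _ _).2 ⟨k, hkU, Or.inl rfl⟩
      have m2 : lt (rt k) ∈ Dt := (mDt _ _).2 ⟨k, hkU, Or.inr rfl⟩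
      have c1 := CA.col_kt (hT k hk)
      have c2 := CA.col_rt (hT k hk)
      rw [h3 k hk hkT, hq2]
      simp only
      rw [if_pos m1, if_pos m2, tt_lt, tt_lt]
      obtain ⟨s, g1, g2⟩ := k
      simp only at c1 c2 ⊢
      by_cases he : ev (g1, g2) = true
      · have he' := ev_true.1 he
        rw [if_pos he, if_neg (fun h => by have := c1.2 h; omega),
          if_neg (fun h => by have := c2.2 h; omega)]
        unfold mg
        rw [if_pos he]
        ring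
      · have he' : (g1 + g2) % 2 = 1 := ev_false.1 (by simpa using he)
        rw [if_neg he, if_pos (c1.1 he'), if_pos (c2.1 he')]
        unfold mg
        rw [if_neg he]
        ring

/-! ### Totals -/

section tot

variable {ι : Type*} [DecidableEq ι] {B : Finset (ℤ × ℤ)} {fm : ℤ × ℤ → ι} {co : ι → Bool}
  {s : ℤ × ℤ → ℂ}

lemma disj_ENT (hT : ∀ k ∈ Tr, CA D p k) : Disjoint (EN D p) (TTr Tr) := by
  rw [disjoint_left]
  intro e h1 h2
  obtain ⟨k, hk, rfl⟩ := mem_TTr.1 h2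
  exact (CA.kt_ly (hT k hk)).out (mem_EN.1 h1)

/-- **The total with the weights `s` of the ties**, as a mean over the two tiles of the ties. -/
theorem totL (hT : ∀ k ∈ Tr, CA D p k) (hTT : T ⊆ Tr) (hS : S ⊆ FR D p) (hB : B ⊆ EN D p)
    (hco : ∀ k ∈ Tr, co (fm (lt (kt k))) = !ev k.2)
    (hF : ∀ k ∈ Tr, Leaf Φ (ev k.2) (gp k.2)) (hq : ∀ e ∈ EN D p, q e = 1 / 2)
    (s1 : ∀ k ∈ T, (if ev k.2 = true then s (lt (kt k)) else 1 - s (lt (kt k))) =
      mg (ev k.2) (q (lt (kt k))) (q (lt (rt k))))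
    (s0 : ∀ k ∈ Tr, k ∉ T → s (lt (kt k)) = 0) :
    TotV (VF (FTr Φ O p Tr S) (EN D p) B (TTr Tr) fm co) B (TTr Tr) s =
      Ec q (ET D p T) (fun ω => Φ (ω ∪ WT O p T S)) := by
  classical
  set q1 : ℤ × ℤ → ℂ := fun e => if e ∈ TTr Tr then (if co (fm e) = true then 1 - s e else s e)
    else 1 / 2 with hq1
  have n1 : ∀ e ∈ EN D p, q1 e = 1 / 2 := fun e he => by
    rw [hq1]
    simp only
    rw [if_neg fun h => disjoint_left.1 (disj_ENT hT) he h]
  rw [TotV_VF (q := q1) hB (disj_ENT hT) n1 (fun e he => by rw [hq1]; simp only; rw [if_pos he])]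
  refine totT hT hTT hS hF (fun e he => by rw [n1 e he, hq e he]) (fun k hk => ?_)
    (fun k hk hkT => ?_)
  · have hk' := hTT hk
    rw [← s1 k hk, hq1]
    simp only
    rw [if_pos (kt_TTr hk'), hco k hk']
    cases ev k.2 <;> simp
  · rw [hq1]
    simp only
    rw [if_pos (kt_TTr hk), hco k hk, s0 k hk hkT]
    cases ev k.2 <;> simp

/-- **The natural totals.** -/
theorem totNT (hT : ∀ k ∈ Tr, CA D p k) (hTT : T ⊆ Tr) (hS : S ⊆ FR D p) (hB : B ⊆ EN D p)
    (hco : ∀ k ∈ Tr, co (fm (lt (kt k))) = !ev k.2)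
    (hF : ∀ k ∈ Tr, Leaf Φ (ev k.2) (gp k.2))
    (s1 : ∀ k ∈ T, s (lt (kt k)) = 1 / 4) (s0 : ∀ k ∈ Tr, k ∉ T → s (lt (kt k)) = 0) :
    TotV (VF (FTr Φ O p Tr S) (EN D p) B (TTr Tr) fm co) B (TTr Tr) s =
      Ec (fun _ => (1 / 2 : ℂ)) (ET D p T) (fun ω => Φ (ω ∪ WT O p T S)) := by
  refine totL hT hTT hS hB hco hF (fun _ _ => rfl) (fun k hk => ?_) s0
  rw [s1 k hk]
  unfold mg
  cases ev k.2
  · simp; norm_num
  · simp; norm_num

end tot

/-! ### Comparison with the reference window -/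

/-- off the column to the right of the window and the rows behind it, a tile which is not in `P^p`, not frozen
and not at a left tie is a fill tile -/
lemma fill_iff_ref (h : x + sh p < D.w ∨ y < 0 ∨ D.h ≤ y) :
    (¬ InP D p x y ∧ ¬ FRt D p x y ∧ ¬ InT (Tlf D p) x y) ↔ Fill D p x y := by
  constructor
  · rintro ⟨h1, h2, h3⟩ hn
    obtain ⟨k, k1, k2⟩ := inT_of_ring ⟨hn, h1⟩ h2
    have hk := mem_CAs.1 k1
    refine h3 ⟨k, mem_Tlf.2 ⟨hk, fun hR => ?_⟩, k2⟩
    have hl : LyA D p .R x y := by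
      rw [← hR]
      rcases k2 with k2 | k2
      · have := CA.kt_ly hk
        rwa [k2] at this
      · have := CA.rt_ly hk
        rwa [k2] at this
    obtain ⟨a1, a2, a3⟩ := LyA_R.1 hl
    omega
  · intro hf
    exact ⟨hf.not_inP, fun h2 => hf h2.1.1, fun h2 => by
      obtain ⟨s, hs⟩ := h2.ly Tlf_CA
      exact hf hs.near⟩

/-- **The open labels agree with those of the reference window** off the right column and the rows behind it. -/
theorem mem_WTr_ref {O' : OutB (refD D p)} {S' : Finset (ℤ × ℤ)}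
    (h : x + sh p < D.w ∨ y < 0 ∨ D.h ≤ y) (hB : InB D x y)
    (hSS : lt (x, y) ∈ S ↔ lt (x, y) ∈ S') :
    lt (x, y) ∈ WTr O p (Tlf D p) S ↔ lt (x, y) ∈ WA O' p S' := by
  rw [mem_WTr, mem_WA, RO_ref, hSS]
  have w1 : lt (x, y) ∉ O.Wo := fun h2 => O.far x y h2 hB
  have w2 : lt (x, y) ∉ O'.Wo := fun h2 => O'.far x y h2 hB
  have e1 : (InB D x y ∧ ¬ InP D p x y ∧ ¬ FRt D p x y ∧ ¬ InT (Tlf D p) x y ∧ natc D p x y = true) ↔
      (InB (refD D p) x y ∧ Fill (refD D p) p x y ∧ natc (refD D p) p x y = true) := by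
    rw [InB_ref, Fill_ref, ← fill_iff_ref h]
    constructor
    · rintro ⟨a1, a2, a3, a4, a5⟩
      refine ⟨a1, ⟨a2, a3, a4⟩, ?_⟩
      have hf := (fill_iff_ref h).1 ⟨a2, a3, a4⟩
      rwa [natc_ref]
      by_contra hc
      push Not at hc
      refine hf.not_inP ⟨hc.1, hc.2.1, ?_, ?_⟩
      · have := sh_nonneg p
        omega
      · omega
    · rintro ⟨a1, ⟨a2, a3, a4⟩, a5⟩
      refine ⟨a1, a2, a3, a4, ?_⟩
      have hf := (fill_iff_ref h).1 ⟨a2, a3, a4⟩
      rwa [natc_ref] at a5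
      by_contra hc
      push Not at hc
      refine hf.not_inP ⟨hc.1, hc.2.1, ?_, ?_⟩
      · have := sh_nonneg p
        omega
      · omega
  have e2 : (∃ k ∈ Tlf D p, ev k.2 = true ∧ rt k = (x, y)) ↔
      ∃ k : Ix, k.1 ≠ .R ∧ CA D p k ∧ rt k = (x, y) ∧ ev k.2 = true := by
    constructor
    · rintro ⟨k, h1, h2, h3⟩
      exact ⟨k, (mem_Tlf.1 h1).2, (mem_Tlf.1 h1).1, h3, h2⟩
    · rintro ⟨k, h1, h2, h3, h4⟩
      exact ⟨k, mem_Tlf.2 ⟨h2, h1⟩, h4, h3⟩
  rw [e1, e2]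
  constructor
  · rintro (h1 | h1 | h1 | h1)
    · exact Or.inl h1
    · exact Or.inr (Or.inr (Or.inl h1))
    · exact absurd h1 w1
    · exact Or.inr (Or.inl h1)
  · rintro (h1 | h1 | h1 | h1)
    · exact Or.inl h1
    · exact Or.inr (Or.inr (Or.inr h1))
    · exact Or.inr (Or.inl h1)
    · exact absurd h1 w2

end Pool.Agent.H34.W.Lin
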