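import Pool.Agent.H34.W.LinG

set_option autoImplicit false
open Finset

/-! # The line on the left arc: the theorem

`slI a b c s` : weight of the ties of the kind `s` (`a (1 - a)`, `b (1 - b)`, `c (1 - c)` for `L`, `F`, `C`).
`line_I` : the mean over the random labels of the position `D.a` with the weights `D.qJ D.a a b c` of a functional
`Φ` is the mean over the real frozen tiles of the totals of `VF (FTr Φ ..)`. `line_Ig`, `line_Id` : other
weights at ignored labels (string), ignored labels dropped. `qJ_B2` : the weights are bounded. -/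

namespace Pool.Agent.H34.W.Lin

open Pool.Agent.H75.Perc hiding ET mem_ET
open Pool.Agent.H75.TwoArm Pool.Agent.Q1 Pool.Agent.H33.Q1
open Pool.Agent.H69.Q1 Pool.Agent.H13.Q1 Pool.Agent.H39.Q1
open Pool.Agent.H54.W (Win Out Pos)
open Pool.Agent.H54.W.Win
open Pool.Agent.H42.Sp (Sd Ix kt rt kt_odd rt_even kt_Tg rt_Tg cap_of OTp)
open Pool.Agent.H13.R45 (ev gp ev_true ev_false Tg)
open Pool.Agent.H74.R45 (exists_lt)
open Pool.Agent.H72.W.N hiding TA mem_TA TB mem_TB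
open Pool.Agent.H49.W (Leaf qJ_col qJ_RE qJ_RW qJ_RB qJ_RT qJ_bulk wal_odd wal_even)
open Pool.Agent.H62.W
open Pool.Agent.H42.W (VF)
open Pool.Agent.H15.W (TotV)

variable {D : Win} {x y : ℤ} {τ : ℤ → ℤ} {S R : Finset (ℤ × ℤ)} {Φ : Finset (ℤ × ℤ) → ℂ}
  {q : ℤ × ℤ → ℂ} {a b c : ℂ}

/-- weight of the ties of the kind `s` -/
def slI (a b c : ℂ) : Sd → ℂ
  | .L => a * (1 - a)
  | .R => 0
  | .F => b * (1 - b)
  | .C => c * (1 - c)

/-- merged weights -/
lemma mg_wal {k : Ix} {w : ℂ} {q : ℤ × ℤ → ℂ} (h1 : q (lt (kt k)) = wal (kt k).1 (kt k).2 w)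
    (h2 : q (lt (rt k)) = wal (rt k).1 (rt k).2 w) :
    (if ev k.2 = true then w * (1 - w) else 1 - w * (1 - w)) =
      mg (ev k.2) (q (lt (kt k))) (q (lt (rt k))) := by
  rw [h1, h2, wal_odd (kt_odd k), wal_even (rt_even k)]
  unfold mg
  cases ev k.2
  · simp only [Bool.false_eq_true, if_false]; ring
  · simp only [if_true]; ring

section line

variable {ι : Type*} [DecidableEq ι] {B : Finset (ℤ × ℤ)} {fm : ℤ × ℤ → ι} {co : ι → Bool}
  {s : ℤ × ℤ → ℂ} {O : OutB D}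

/-- **The line on the left arc.** -/
theorem line_I (hB : B ⊆ EN D false) (hco : ∀ k ∈ Tlf D false, co (fm (lt (kt k))) = !ev k.2)
    (hF : ∀ k ∈ Tlf D false, Leaf Φ (ev k.2) (gp k.2))
    (hs : ∀ k ∈ Tlf D false, s (lt (kt k)) = slI a b c k.1) :
    Ec (D.qJ D.a a b c) (D.EJ D.a) (fun ω => Φ (ω ∪ D.WJ D.a O.out.Wo)) =
      Ec (D.qJ D.a a b c) (ZF D) (fun S =>
        TotV (VF (FTr Φ O false (Tlf D false) (frz O S)) (EN D false) B (TTr (Tlf D false)) fm co) B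
          (TTr (Tlf D false)) s) := by
  have hZ : ZF D ⊆ D.EJ D.a := inter_subset_right
  rw [Ec_freeze hZ]
  refine Ec_congr fun S hS => ?_
  rw [EJ_sets, WJ_sets O hS]
  refine (totL Tlf_CA (Subset.refl _) (frz_sub O S) hB hco hF (fun e he => ?_) (fun k hk => ?_)
    (fun k hk hk' => absurd hk hk')).symm
  · obtain ⟨x, y, rfl⟩ := exists_lt (odd_EN he)
    rw [mem_EN] at he
    obtain ⟨h1, h2, h3, h4⟩ := inPF.1 he
    exact qJ_bulk ⟨h1, h2, by omega, h4⟩ (by omega)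
  · obtain ⟨hk', hR⟩ := mem_Tlf.1 hk
    have e1 := (ly_line (a := a) (b := b) (c := c) hR (CA.kt_ly hk')).2
    have e2 := (ly_line (a := a) (b := b) (c := c) hR (CA.rt_ly hk')).2
    rw [← mg_wal e1 e2, hs k hk]
    obtain ⟨t, g⟩ := k
    cases t
    · rfl
    · exact absurd rfl hR
    · unfold slI wlI
      simp only [sub_sub_cancel]
      rw [mul_comm b (1 - b)]
    · unfold slI wlI
      simp only [sub_sub_cancel]
      rw [mul_comm c (1 - c)]

/-- other weights at ignored labels -/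
theorem line_Ig (hI : Ign Φ R) (hq : ∀ e ∈ D.EJ D.a, e ∉ R → q e = D.qJ D.a a b c e) :
    Ec q (D.EJ D.a) (fun ω => Φ (ω ∪ D.WJ D.a O.out.Wo)) =
      Ec (D.qJ D.a a b c) (D.EJ D.a) (fun ω => Φ (ω ∪ D.WJ D.a O.out.Wo)) :=
  Ec_ign (hI.union _) hq

/-- ignored labels dropped -/
theorem line_Id (hI : Ign Φ R) (hq : ∀ e ∈ D.EJ D.a, e ∉ R → q e = D.qJ D.a a b c e) :
    Ec q (D.EJ D.a \ R) (fun ω => Φ (ω ∪ D.WJ D.a O.out.Wo)) =
      Ec (D.qJ D.a a b c) (D.EJ D.a) (fun ω => Φ (ω ∪ D.WJ D.a O.out.Wo)) := by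
  rw [← line_Ig hI hq]
  exact (Ec_drop (hI.union _)).symm

end line

/-! ### The weights are bounded -/

lemma B2.wal {w : ℂ} (h : B2 w) : B2 (wal x y w) := by
  unfold Pool.Agent.H54.W.Win.wal
  split_ifs
  · exact h
  · exact h.sym

theorem qJ_B2 (ha : ‖a‖ ≤ 1) (ha' : ‖1 - a‖ ≤ 1) (hb : ‖b‖ ≤ 1) (hc : ‖c‖ ≤ 1) (hc' : ‖1 - c‖ ≤ 1)
    (e : ℤ × ℤ) : B2 (D.qJ τ a b c e) := by
  have k1 : B2 (1 - b) := (B2.of_one hb).sym
  have k2 : B2 (1 - c) := (B2.of_one hc).sym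
  have k3 : B2 a := B2.of_one ha
  have k4 : B2 (1 - (1 - a) * b) := (B2.mul ha' hb).sym
  have k5 : B2 ((1 - c) * a) := B2.mul hc' ha
  have k8 : B2 (1 / 2 : ℂ) := B2.of_one (by norm_num)
  unfold Win.qJ
  refine B2.wal ?_
  unfold Win.wA
  split_ifs <;> first
    | exact k1
    | exact k2
    | exact k3
    | exact k4
    | exact k5
    | exact k8

end Pool.Agent.H34.W.Lin
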