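import Pool.Agent.H34.W.RectW
import Pool.Agent.H93.W.Rgw
import Pool.Agent.H64.Win.Front

set_option autoImplicit false

/-!
# One row as a region with weights

`srowW`: the row `srow` of `H64/Win/Front` with a weight `c x` of the line for every column `x`, a weight `r`
for the row and weights `wt x` of the tiles, `YB (c x) r (wt x)`. The weight of the line at the lower end of
the column `x` is `dp (c x)` and at its upper end `dq (c x)`, and `1 - (dq c)⁻¹ = dp c`. A natural column:
`c x = wa (ang φ 1)` etc. (`yb_nat`); a frozen column: `c x = z`, `dp z = dq z = z`, its tile has the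
weight `1 - z` (`Fz.yb2`).
-/

namespace Pool.Agent.H34.W

open Pool.Agent.H64.Q1 Pool.Agent.H64.Q1.LP Pool.Agent.H64.Win Pool.Agent.H81.G1 Pool.Agent.H13.Q1
  Pool.Agent.H11.W Pool.Agent.H93.W

section

variable {w : ℕ} (L R : Bool) (c : ℕ → ℂ) (r : ℂ)

/-- the weight of the line at a name of the front: `kL` is the weight at the left end -/
noncomputable def stw (kL : ℂ) : RA → ℂ
  | .inl (k, x, _) => if k = 3 then kL else if k = 1 then dp (c x) else
      if k = 2 then dq r else dq (c x)
  | .inr _ => 0

/-- the weight of the line at the left end -/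
noncomputable def kL : ℂ := if L then dp r else r

theorem sfrontW1 : List.ofFn (fun i : Fin (m1 w L R) =>
    (sf1 L R w i, skf L (sf1 L R w i), stw c r (kL L r) (sf1 L R w i))) =
      (if L then [(rnm 3 0 0, (2 : ℤ), dp r)] else []) ++
        ((List.range w).map fun x => (rnm 1 x 0, (3 : ℤ), dp (c x))) ++
        (if R then [(rnm 2 w 0, (4 : ℤ), dq r)] else []) := by
  apply List.ext_getElem
  · cases L <;> cases R <;> simp [m1] <;> omega
  · intro i h1 h2
    rw [List.getElem_ofFn]
    rw [List.length_ofFn] at h1
    by_cases c1 : i < bn L
    · cases L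
      · simp at c1
      · simp only [bn_true] at c1
        obtain rfl : i = 0 := by omega
        rw [List.getElem_append_left (by simp), List.getElem_append_left (by simp)]
        rfl
    · by_cases c2 : i < bn L + w
      · have e1 : (if L then [((rnm 3 0 0 : RA), (2 : ℤ), dp r)] else []).length = bn L := by
          cases L <;> rfl
        rw [List.getElem_append_left (by rw [List.length_append, e1]; simpa using c2),
          List.getElem_append_right (by rw [e1]; omega)]
        simp only [e1]
        rw [List.getElem_map, List.getElem_range]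
        unfold sf1
        simp only [if_neg c1, if_pos c2]
        rfl
      · cases R
        · simp only [m1, bn_false] at h1; omega
        · have hi : i = bn L + w := by simp only [m1, bn_true] at h1; omega
          subst hi
          have e1 : (if L then [((rnm 3 0 0 : RA), (2 : ℤ), dp r)] else []).length = bn L := by
            cases L <;> rfl
          rw [List.getElem_append_right (by rw [List.length_append, e1]; simp)]
          unfold sf1
          simp only [if_neg c1, if_neg c2]
          simp only [List.length_append, e1, List.length_map, List.length_range, Nat.sub_self,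
            if_true, List.getElem_cons_zero]
          rfl

theorem sfrontW2 : List.ofFn (fun i : Fin (m2 w L R) =>
    (sf2 L R w i, skf L (sf2 L R w i), stw c r (kL L r) (sf2 L R w i))) =
      (if R then [] else [(rnm 2 w 0, (4 : ℤ), dq r)]) ++
        ((List.range w).map fun x => (rnm 0 x 1, (5 : ℤ), dq (c x))).reverse ++
        (if L then [] else [(rnm 3 0 0, (6 : ℤ), r)]) := by
  apply List.ext_getElem
  · cases L <;> cases R <;> simp [m2] <;> omega
  · intro i h1 h2
    rw [List.getElem_ofFn]
    rw [List.length_ofFn] at h1
    have e1 : (if R then [] else [((rnm 2 w 0 : RA), (4 : ℤ), dq r)]).length = bn (!R) := by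
      cases R <;> rfl
    by_cases c1 : i < bn (!R)
    · cases R
      · simp only [Bool.not_false, bn_true] at c1
        obtain rfl : i = 0 := by omega
        rw [List.getElem_append_left (by simp), List.getElem_append_left (by simp)]
        rfl
      · simp at c1
    · by_cases c2 : i < bn (!R) + w
      · rw [List.getElem_append_left (by rw [List.length_append, e1]; simpa using c2),
          List.getElem_append_right (by rw [e1]; omega)]
        simp only [e1]
        rw [List.getElem_reverse, List.getElem_map, List.getElem_range]
        simp only [List.length_map, List.length_range]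
        unfold sf2
        simp only [if_neg c1, if_pos c2]
        rfl
      · cases L
        · have hi : i = bn (!R) + w := by simp only [m2, Bool.not_false, bn_true] at h1; omega
          subst hi
          rw [List.getElem_append_right (by rw [List.length_append, e1]; simp)]
          unfold sf2
          simp only [if_neg c1, if_neg c2]
          simp only [List.length_append, e1, List.length_reverse, List.length_map,
            List.length_range, Nat.sub_self, Bool.false_eq_true, if_false,
            List.getElem_cons_zero]
          rfl
        · simp only [m2, Bool.not_true, bn_false] at h1; omega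

/-- **One row with weights.** -/
noncomputable def srowW (w : ℕ) (hw : 0 < w) (hc : ∀ x, x < w → Nz (c x)) (hr : Nz r)
    (wt : ℕ → ℂ) (hYB : ∀ x, x < w → YB (c x) r (wt x)) :
    Rgw (RQ w 1) RA (m1 w L R) (m2 w L R) where
  g := rg
  u := .inr true
  v := .inr false
  er := rer
  f1 := sf1 L R w
  f2 := sf2 L R w
  kf := skf L
  t1 := fun i => stw c r (kL L r) (sf1 L R w i)
  t2 := fun i => stw c r (kL L r) (sf2 L R w i)
  p1 := sp1 L R hw
  p2 := sp2 L R hw
  st := fun _ => .S
  I := rIs w 1
  wt := fun p => wt p.1.1
  nd := by
    unfold rIs
    apply List.Nodup.pmap _ rI_nodup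
    intro a ha b hb h
    exact congrArg Subtype.val h
  all := by
    rintro ⟨p, hp⟩
    unfold rIs
    rw [List.mem_pmap]
    exact ⟨p, mem_rI.2 hp, rfl⟩
  er_inj := rer_inj
  kuv := ⟨rfl, rfl⟩
  erf := by
    rintro ⟨⟨⟨a, b⟩, ha, hb⟩, d⟩
    simp only at ha hb
    refine ⟨by cases d <;> simp [rer, rnm], by cases d <;> simp [rer, rnm], ?_, ?_⟩
    · intro i
      unfold sf1
      cases d <;> split_ifs <;> simp only [rer, rnm, ne_eq, Sum.inl.injEq, Prod.mk.injEq] <;>
        first
        | (intro h; exact absurd h.1 (by decide))
        | omega
    · intro i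
      unfold sf2
      cases d <;> split_ifs <;> simp only [rer, rnm, ne_eq, Sum.inl.injEq, Prod.mk.injEq] <;>
        first
        | (intro h; exact absurd h.1 (by decide))
        | omega
  gp1 := by
    intro i
    unfold sp1 sf1
    split_ifs with h1 h2
    · rfl
    · rfl
    · change (Sum.inl (flk 3, w - 1 + 1, 0) : RA) = .inl (2, w, 0)
      rw [Nat.sub_add_cancel hw]
      rfl
  gp2 := by
    intro i
    unfold sp2 sf2
    split_ifs with h1 h2
    · change (Sum.inl (flk 3, w - 1 + 1, 0) : RA) = .inl (2, w, 0)
      rw [Nat.sub_add_cancel hw]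
      rfl
    · rfl
    · rfl
  cls := srow_cases L R hw
  bt := by
    obtain ⟨T, hT⟩ := wrect (rectN w 1) hw hc (r := fun _ => r) (fun p => wt p.1)
      (fun _ _ => hr) (fun x _ hx _ => hYB x hx)
    refine ⟨T, ?_⟩
    rw [sfrontW1, sfrontW2]
    have e : (rIs w 1).map (rgT rer (fun _ => .S) (fun p => wt p.1.1)) =
        (rI w 1).map (rTw rnm fun p => wt p.1) := by
      unfold rIs
      rw [List.map_pmap]
      rw [← List.pmap_eq_map (p := fun p => p.1 < w ∧ p.2 < 1) (H := fun _ hp => mem_rI.1 hp)]
      rfl
    rw [e]
    have e1 : ((List.range 1).map fun y => (rnm 3 0 y, (2 : ℤ), dp r)).reverse =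
        [(rnm 3 0 0, (2 : ℤ), dp r)] := rfl
    have e2 : ((List.range 1).map fun y => (rnm 2 w y, (4 : ℤ), dq r)) =
        [(rnm 2 w 0, (4 : ℤ), dq r)] := rfl
    rw [e1, e2] at hT
    cases L
    · have h1 := Bw.rots [(rnm 3 0 0, (2 : ℤ), dp r)] (by
        intro c' hc'
        rw [List.mem_singleton] at hc'
        subst hc'
        exact hr.dp_ne.2) _ (by rw [List.append_assoc] at hT; exact hT)
      have e3 : [((rnm 3 0 0 : RA), (2 : ℤ), dp r)].map rt4w = [(rnm 3 0 0, (6 : ℤ), r)] := by
        have h3 := hr.dq_dp
        unfold dq at h3
        simp only [List.map_cons, List.map_nil, rt4w]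
        rw [h3]
        norm_num
      rw [e3] at h1
      cases R
      · simpa using h1
      · simpa using h1
    · cases R
      · simpa using hT
      · simpa using hT

/-- a natural column and the natural line -/
theorem yb_nat {φ : ℂ} (hφ : ∀ k, Complex.sin (ang φ k) ≠ 0) :
    YB (wa (ang φ 1)) (wa (ang φ 0)) (1 / 2) := by
  obtain ⟨h1, h2⟩ := half_wt φ
  rw [← h1]
  exact yb_wa (hφ 1) (hφ 0) h2

end

end Pool.Agent.H34.W
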