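import Mathlib

set_option autoImplicit false
open Complex Set MeasureTheory

/-! # An odd function on an annulus is small in the middle

`F` analytic on `r < |v| < 1/r`, continuous up to the boundary, odd, and bounded by `M` on both boundary
circles: then `|F| ≤ 4 r M` on the unit circle (there is no constant term). -/

namespace Pool.Agent.H34.W

/-- Cauchy's formula on an annulus centred at `0`. -/
theorem cauchy_annulus {F : ℂ → ℂ} {r R : ℝ} (hr : 0 < r) (hrR : r < R)
    (hc : ContinuousOn F {v | r ≤ ‖v‖ ∧ ‖v‖ ≤ R})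
    (hd : ∀ v : ℂ, r < ‖v‖ → ‖v‖ < R → DifferentiableAt ℂ F v) {w : ℂ} (h1 : r < ‖w‖)
    (h2 : ‖w‖ < R) :
    (2 * Real.pi * I : ℂ) * F w = (∮ z in C(0, R), (z - w)⁻¹ * F z) - ∮ z in C(0, r), (z - w)⁻¹ * F z := by
  have hR : 0 < R := hr.trans hrR
  have key := circleIntegral_eq_of_differentiable_on_annulus_off_countable (c := (0 : ℂ)) hr hrR.le
    (f := dslope F w) (s := {w}) (countable_singleton w)
    (by
      have hmem : ∀ z : ℂ, z ∈ Metric.closedBall (0 : ℂ) R \ Metric.ball 0 r → r ≤ ‖z‖ ∧ ‖z‖ ≤ R := by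
        intro z hz
        simp only [mem_sdiff, Metric.mem_closedBall, dist_zero_right, Metric.mem_ball, not_lt] at hz
        exact ⟨hz.2, hz.1⟩
      have : ContinuousOn F (Metric.closedBall (0 : ℂ) R \ Metric.ball 0 r) := hc.mono hmem
      refine (continuousOn_dslope ?_).2 ⟨this, hd w h1 h2⟩
      have hopen : IsOpen {v : ℂ | r < ‖v‖ ∧ ‖v‖ < R} :=
        (isOpen_lt continuous_const continuous_norm).inter (isOpen_lt continuous_norm continuous_const)
      refine Filter.mem_of_superset (hopen.mem_nhds ⟨h1, h2⟩) ?_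
      intro z hz
      simp only [mem_sdiff, Metric.mem_closedBall, dist_zero_right, Metric.mem_ball, not_lt]
      exact ⟨hz.2.le, hz.1.le⟩)
    (by
      intro z hz
      simp only [mem_sdiff, Metric.mem_closedBall, dist_zero_right, Metric.mem_ball, not_le,
        mem_singleton_iff] at hz
      exact (differentiableAt_dslope_of_ne hz.2).2 (hd z hz.1.2 hz.1.1))
  have hs : ∀ ρ : ℝ, 0 < ρ → (∀ z : ℂ, ‖z‖ = ρ → z ≠ w) → ContinuousOn F {z | ‖z‖ = ρ} →
      (∮ z in C(0, ρ), dslope F w z) = (∮ z in C(0, ρ), (z - w)⁻¹ * F z) -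
        F w * ∮ z in C(0, ρ), (z - w)⁻¹ := by
    intro ρ hρ hne hcc
    have hsub : Metric.sphere (0 : ℂ) ρ = {z | ‖z‖ = ρ} := by ext z; simp
    have hinv : ContinuousOn (fun z : ℂ => (z - w)⁻¹) (Metric.sphere (0 : ℂ) ρ) := by
      apply ContinuousOn.inv₀ (by fun_prop)
      intro z hz
      exact sub_ne_zero.2 (hne z (by simpa using hz))
    have i1 : CircleIntegrable (fun z : ℂ => (z - w)⁻¹ * F z) 0 ρ :=
      ContinuousOn.circleIntegrable hρ.le (hinv.mul (by rw [hsub]; exact hcc))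
    have i2 : CircleIntegrable (fun z : ℂ => F w * (z - w)⁻¹) 0 ρ :=
      ContinuousOn.circleIntegrable hρ.le (continuousOn_const.mul hinv)
    rw [← circleIntegral.integral_const_mul, ← circleIntegral.integral_sub i1 i2]
    apply circleIntegral.integral_congr hρ.le
    intro z hz
    have hz' : z ≠ w := hne z (by simpa using hz)
    simp only [dslope_of_ne _ hz', slope_def_field]
    field_simp [sub_ne_zero.2 hz']
  have hRs := hs R hR (fun z hz h => by rw [h] at hz; exact h2.ne hz)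
    (hc.mono (fun z hz => by
      simp only [mem_ofPred_eq] at hz ⊢; exact ⟨by rw [hz]; exact hrR.le, hz.le⟩))
  have hrs := hs r hr (fun z hz h => by rw [h] at hz; exact h1.ne' hz)
    (hc.mono (fun z hz => by
      simp only [mem_ofPred_eq] at hz ⊢; exact ⟨hz.ge, by rw [hz]; exact hrR.le⟩))
  have e1 : (∮ z in C(0, R), (z - w)⁻¹) = 2 * Real.pi * I := by
    apply circleIntegral.integral_sub_inv_of_mem_ball
    simpa using h2
  have e2 : (∮ z in C(0, r), (z - w)⁻¹) = 0 := by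
    apply circleIntegral_eq_zero_of_differentiable_on_off_countable hr.le (s := ∅) countable_empty
    · apply ContinuousOn.inv₀ (by fun_prop)
      intro z hz h
      rw [sub_eq_zero] at h
      rw [h] at hz
      simp only [Metric.mem_closedBall, dist_zero_right] at hz
      linarith
    · intro z hz
      have : z - w ≠ 0 := by
        intro h
        rw [sub_eq_zero] at h
        rw [h] at hz
        simp only [sdiff_empty, Metric.mem_ball, dist_zero_right] at hz
        linarith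
      exact ((differentiableAt_id.sub_const w).inv this)
  rw [hRs, hrs, e1, e2] at key
  linear_combination -key

/-- The mean of an odd function over a circle is zero. -/
theorem mean_odd {F : ℂ → ℂ} {R : ℝ} (hodd : ∀ v : ℂ, ‖v‖ = R → F (-v) = -F v) (hR : 0 < R) :
    (∮ z in C(0, R), z⁻¹ * F z) = 0 := by
  set G : ℝ → ℂ := fun θ => deriv (circleMap 0 R) θ • ((circleMap 0 R θ)⁻¹ * F (circleMap 0 R θ)) with hG
  have hne : ∀ θ, circleMap 0 R θ ≠ 0 := fun θ => circleMap_ne_center hR.ne'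
  have hnorm : ∀ θ, ‖circleMap 0 R θ‖ = R := fun θ => by
    rw [norm_circleMap_zero, abs_of_pos hR]
  have hpi : ∀ θ, circleMap 0 R (θ + Real.pi) = -circleMap 0 R θ := by
    intro θ
    simp only [circleMap, zero_add, Complex.ofReal_add, add_mul, Complex.exp_add, Complex.exp_pi_mul_I]
    ring
  have hGe : ∀ θ, G θ = I * F (circleMap 0 R θ) := by
    intro θ
    simp only [hG, deriv_circleMap, smul_eq_mul]
    have := hne θ
    field_simp
  have hanti : ∀ θ, G (θ + Real.pi) = -G θ := by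
    intro θ
    rw [hGe, hGe, hpi, hodd _ (hnorm θ)]
    ring
  have hper : Function.Periodic G (2 * Real.pi) := by
    intro θ
    rw [two_mul, ← add_assoc, hanti, hanti, neg_neg]
  have h1 : (∮ z in C(0, R), z⁻¹ * F z) = ∫ θ in (0 : ℝ)..(0 + 2 * Real.pi), G θ := by
    rw [zero_add]; rfl
  have h2 : (∫ θ in (0 : ℝ)..(0 + 2 * Real.pi), G θ) =
      ∫ θ in (Real.pi)..(Real.pi + 2 * Real.pi), G θ := hper.intervalIntegral_add_eq 0 Real.pi
  have h3 : (∫ θ in (Real.pi)..(Real.pi + 2 * Real.pi), G θ) =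
      -∫ θ in (0 : ℝ)..(0 + 2 * Real.pi), G θ := by
    rw [← intervalIntegral.integral_neg]
    have := intervalIntegral.integral_comp_add_right (a := 0) (b := 0 + 2 * Real.pi) G Real.pi
    rw [show (0 : ℝ) + Real.pi = Real.pi by ring,
      show 0 + 2 * Real.pi + Real.pi = Real.pi + 2 * Real.pi by ring] at this
    rw [← this]
    exact intervalIntegral.integral_congr (fun θ _ => hanti θ)
  rw [h1]
  have h4 := h2.trans h3
  exact self_eq_neg.1 h4

/-- **An odd function on an annulus is small in the middle.** -/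
theorem odd_annulus {F : ℂ → ℂ} {r M : ℝ} (hr : 0 < r) (hr2 : r ≤ 1 / 2)
    (hc : ContinuousOn F {v | r ≤ ‖v‖ ∧ ‖v‖ ≤ r⁻¹})
    (hd : ∀ v : ℂ, r < ‖v‖ → ‖v‖ < r⁻¹ → DifferentiableAt ℂ F v)
    (hodd : ∀ v : ℂ, ‖v‖ = r⁻¹ → F (-v) = -F v)
    (h1 : ∀ v : ℂ, ‖v‖ = r → ‖F v‖ ≤ M) (h2 : ∀ v : ℂ, ‖v‖ = r⁻¹ → ‖F v‖ ≤ M)
    {w : ℂ} (hw : ‖w‖ = 1) : ‖F w‖ ≤ 4 * r * M := by
  have hrr : r * r⁻¹ = 1 := mul_inv_cancel₀ hr.ne'
  have hRpos : 0 < r⁻¹ := inv_pos.2 hr
  have hR2 : 2 ≤ r⁻¹ := by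
    rw [le_inv_comm₀ (by norm_num) hr]; linarith
  have hr1 : r < 1 := by linarith
  have hR1 : 1 < r⁻¹ := by linarith
  have hM : 0 ≤ M := by
    have := h1 (r : ℂ) (by rw [Complex.norm_real, Real.norm_of_nonneg hr.le])
    exact (norm_nonneg _).trans this
  have hC := cauchy_annulus hr (hr1.trans hR1) hc hd (w := w) (by rw [hw]; exact hr1)
    (by rw [hw]; exact hR1)
  have hmean := mean_odd hodd hRpos
  -- outer integral
  have hcR : ContinuousOn F (Metric.sphere (0 : ℂ) r⁻¹) := hc.mono (fun z hz => by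
    have hz : ‖z‖ = r⁻¹ := by simpa using hz
    exact ⟨by rw [hz]; linarith, hz.le⟩)
  have hsR : ∀ z ∈ Metric.sphere (0 : ℂ) r⁻¹, z ≠ 0 ∧ z - w ≠ 0 := by
    intro z hz
    have hz : ‖z‖ = r⁻¹ := by simpa using hz
    refine ⟨fun h => ?_, fun h => ?_⟩
    · rw [h, norm_zero] at hz; linarith
    · rw [sub_eq_zero] at h; rw [h, hw] at hz; linarith
  have i1 : CircleIntegrable (fun z : ℂ => (z - w)⁻¹ * F z) 0 r⁻¹ :=
    ContinuousOn.circleIntegrable hRpos.le
      (((continuousOn_id.sub continuousOn_const).inv₀ (fun z hz => (hsR z hz).2)).mul hcR)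
  have i2 : CircleIntegrable (fun z : ℂ => z⁻¹ * F z) 0 r⁻¹ :=
    ContinuousOn.circleIntegrable hRpos.le
      ((continuousOn_id.inv₀ (fun z hz => (hsR z hz).1)).mul hcR)
  have hout : ‖∮ z in C(0, r⁻¹), (z - w)⁻¹ * F z‖ ≤ 2 * Real.pi * (2 * r * M) := by
    have e : (∮ z in C(0, r⁻¹), (z - w)⁻¹ * F z) =
        ∮ z in C(0, r⁻¹), ((z - w)⁻¹ * F z - z⁻¹ * F z) := by
      rw [circleIntegral.integral_sub i1 i2, hmean, sub_zero]
    rw [e]
    have hb : ∀ z ∈ Metric.sphere (0 : ℂ) r⁻¹,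
        ‖(z - w)⁻¹ * F z - z⁻¹ * F z‖ ≤ 2 * r ^ 2 * M := by
      intro z hz
      obtain ⟨n1, n2⟩ := hsR z hz
      have hz' : ‖z‖ = r⁻¹ := by simpa using hz
      have e1 : (z - w)⁻¹ * F z - z⁻¹ * F z = w * (z - w)⁻¹ * z⁻¹ * F z := by
        field_simp
        ring
      have l1 : r⁻¹ / 2 ≤ ‖z - w‖ := by
        have := norm_sub_norm_le z w
        rw [hz', hw] at this
        linarith
      have l2 : ‖(z - w)⁻¹‖ ≤ 2 * r := by
        rw [norm_inv]
        calc ‖z - w‖⁻¹ ≤ (r⁻¹ / 2)⁻¹ := inv_anti₀ (by positivity) l1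
          _ = 2 * r := by field_simp
      have l3 : ‖z⁻¹‖ = r := by rw [norm_inv, hz', inv_inv]
      rw [e1, norm_mul, norm_mul, norm_mul, hw, l3, one_mul]
      calc ‖(z - w)⁻¹‖ * r * ‖F z‖ ≤ (2 * r) * r * M := by
            gcongr
            exact h2 z hz'
        _ = 2 * r ^ 2 * M := by ring
    have := circleIntegral.norm_integral_le_of_norm_le_const hRpos.le hb
    refine this.trans (le_of_eq ?_)
    field_simp
  have hin : ‖∮ z in C(0, r), (z - w)⁻¹ * F z‖ ≤ 2 * Real.pi * (2 * r * M) := by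
    have hb : ∀ z ∈ Metric.sphere (0 : ℂ) r, ‖(z - w)⁻¹ * F z‖ ≤ 2 * M := by
      intro z hz
      have hz' : ‖z‖ = r := by simpa using hz
      have l1 : 1 / 2 ≤ ‖z - w‖ := by
        have := norm_sub_norm_le w z
        rw [hz', hw, norm_sub_rev] at this
        linarith
      have l2 : ‖(z - w)⁻¹‖ ≤ 2 := by
        rw [norm_inv]
        calc ‖z - w‖⁻¹ ≤ (1 / 2)⁻¹ := inv_anti₀ (by norm_num) l1
          _ = 2 := by norm_num
      rw [norm_mul]
      exact mul_le_mul l2 (h1 z hz') (norm_nonneg _) (by norm_num)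
    have := circleIntegral.norm_integral_le_of_norm_le_const hr.le hb
    refine this.trans (le_of_eq ?_)
    ring
  have hfin : 2 * Real.pi * ‖F w‖ ≤ 2 * Real.pi * (4 * r * M) := by
    have e : ‖(2 * Real.pi * I : ℂ) * F w‖ = 2 * Real.pi * ‖F w‖ := by
      rw [norm_mul]
      congr 1
      simp [abs_of_pos Real.pi_pos]
    rw [← e, hC]
    calc _ ≤ ‖∮ z in C(0, r⁻¹), (z - w)⁻¹ * F z‖ + ‖∮ z in C(0, r), (z - w)⁻¹ * F z‖ :=
          norm_sub_le _ _
      _ ≤ 2 * Real.pi * (2 * r * M) + 2 * Real.pi * (2 * r * M) := add_le_add hout hin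
      _ = _ := by ring
  exact le_of_mul_le_mul_left hfin (by positivity)

end Pool.Agent.H34.W
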