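import Pool.Agent.H64.Q1.Reg8
import Pool.Agent.H11.W.Frz3

set_option autoImplicit false

/-!
# Growth of a rectangle with weights

The rectangle of `H64/Q1/Reg8` with an arbitrary weight `c x` for the crossing of the line with the column `x`
(direction `1`), an arbitrary weight `r y` for the crossing with the row `y` (direction `0`) and arbitrary
weights `wt` of the tiles with the Yang-Baxter relation `YB (c x) (r y) (wt (x, y))`. The weights in the
directions `3`, `5` (columns) and `2`, `4` (rows) are `dp c = (1 - c)⁻¹` and `dq c = 1 - c⁻¹`. A frozen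
column: `c x = z` with `Fz z`, the weights of its tiles are `1 - z` (`Fz.yb2`), `dp z = dq z = z`.
-/

namespace Pool.Agent.H34.W

open Pool.Agent.H64.Q1 Pool.Agent.H64.Q1.LP Pool.Agent.H13.Q1 Pool.Agent.H11.W

variable {D : Type*} [DecidableEq D]

/-! ### The three weights of a line -/

/-- the weight after a half turn -/
noncomputable def dp (c : ℂ) : ℂ := (1 - c)⁻¹

/-- the weight after a full turn -/
noncomputable def dq (c : ℂ) : ℂ := 1 - c⁻¹

/-- a weight which is neither `0` nor `1` -/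
def Nz (c : ℂ) : Prop := c ≠ 0 ∧ c ≠ 1

theorem Nz.sub {c : ℂ} (h : Nz c) : 1 - c ≠ 0 := sub_ne_zero.2 (Ne.symm h.2)

theorem Nz.p_mul {c : ℂ} (h : Nz c) : dp c * (1 - c) = 1 := inv_mul_cancel₀ h.sub

theorem Nz.q_mul {c : ℂ} (h : Nz c) : c * (1 - dq c) = 1 := by
  unfold dq
  rw [sub_sub_cancel]
  exact mul_inv_cancel₀ h.1

theorem Nz.dp_ne {c : ℂ} (h : Nz c) : Nz (dp c) := by
  refine ⟨inv_ne_zero h.sub, ?_⟩
  intro h1
  unfold dp at h1
  rw [inv_eq_one] at h1
  exact h.1 (by linear_combination -h1)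

theorem Nz.dq_ne {c : ℂ} (h : Nz c) : Nz (dq c) := by
  refine ⟨?_, ?_⟩
  · intro h1
    unfold dq at h1
    have h2 : c⁻¹ = 1 := (sub_eq_zero.1 h1).symm
    rw [inv_eq_one] at h2
    exact h.2 h2
  · intro h1
    unfold dq at h1
    have h2 : c⁻¹ = 0 := by linear_combination -h1
    exact h.1 (inv_eq_zero.1 h2)

theorem Nz.pq {c : ℂ} (h : Nz c) : dq c * (1 - dp c) = 1 := by
  have h1 := h.1
  have h2 := h.sub
  unfold dq dp
  field_simp
  ring

theorem Nz.dq_dp {c : ℂ} (_ : Nz c) : dq (dp c) = c := by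
  unfold dq dp
  rw [inv_inv]; ring

theorem Nz.dp_dp {c : ℂ} (h : Nz c) : dp (dp c) = dq c := by
  have h1 := h.dp_ne.p_mul
  have h2 := h.pq
  exact mul_right_cancel₀ h.dp_ne.sub (h1.trans h2.symm)

theorem Nz.dq_dq {c : ℂ} (h : Nz c) : dq (dq c) = dp c := by
  rw [← h.dp_dp, h.dp_ne.dq_dp]

theorem dp_fz {z : ℂ} (h : Fz z) : dp z = z := inv_eq_of_mul_eq_one_left h

theorem dq_fz {z : ℂ} (h : Fz z) : dq z = z := h.rot

theorem nz_fz {z : ℂ} (h : Fz z) : Nz z := ⟨h.ne_zero, h.ne_one⟩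

theorem nz_wa {θ : ℂ} (h : Complex.sin θ ≠ 0) : Nz (wa θ) := ⟨wa_ne h, wa_ne_one h⟩

theorem dp_wa {θ : ℂ} (h : Complex.sin θ ≠ 0) : dp (wa θ) = wa (θ + Real.pi) := by
  obtain ⟨-, h2, -⟩ := gen_ne h
  obtain ⟨-, g2, -⟩ := gen_ne (gen_add h)
  have e1 : θ = θ + Real.pi - Real.pi := by ring
  have h1 := wa_unit (θ + Real.pi) g2 (by rw [← e1]; exact h2)
  rw [← e1] at h1
  exact inv_eq_of_mul_eq_one_left h1

theorem dq_wa {θ : ℂ} (h : Complex.sin θ ≠ 0) : dq (wa θ) = wa (θ + 2 * Real.pi) := by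
  rw [wa_turn h]; rfl

/-! ### The growth -/

/-- a growth whose names are bounded -/
def Bbw (g : LP D) (u v : D) (nm : Fin 4 → ℕ → ℕ → D) (P : Fin 4 → ℕ → ℕ → Prop)
    (l : List (Tl D)) (F : List (Fe D)) : Prop :=
  ∃ T, Bw g u v T l F ∧ ∀ z ∈ T, z = u ∨ z = v ∨ ∃ k x y, P k x y ∧ z = nm k x y

omit [DecidableEq D] in
theorem Bbw.mono {g : LP D} {u v : D} {nm : Fin 4 → ℕ → ℕ → D} {P P' : Fin 4 → ℕ → ℕ → Prop}
    {l : List (Tl D)} {F : List (Fe D)} (h : Bbw g u v nm P l F)
    (hP : ∀ k x y, P k x y → P' k x y) : Bbw g u v nm P' l F := by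
  obtain ⟨T, h1, h2⟩ := h
  refine ⟨T, h1, fun z hz => ?_⟩
  rcases h2 z hz with h | h | ⟨k, x, y, h, e⟩
  · exact Or.inl h
  · exact Or.inr (Or.inl h)
  · exact Or.inr (Or.inr ⟨k, x, y, hP k x y h, e⟩)

section rect

variable {g : LP D} {u v : D} {w h : ℕ} {nm : Fin 4 → ℕ → ℕ → D}

omit [DecidableEq D] in
/-- a new wire -/
theorem Bbw.edge (H : RectN g u v w h nm) {P P' : Fin 4 → ℕ → ℕ → Prop} {l : List (Tl D)}
    (F1 F2 : List (Fe D)) (hB : Bbw g u v nm P l (F1 ++ F2)) {k k' : Fin 4} {x y : ℕ} {j : ℤ}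
    {a b : ℂ} (ha : a ≠ 0) (hab : b * (1 - a) = 1) (hv : Val w h k x y)
    (hk : g (nm k x y) = nm k' x y)
    (hd : g.d (nm k x y) = 0) (hnew : ¬ P k x y) (hPv : ∀ k x y, P k x y → Val w h k x y)
    (hP : ∀ k x y, P k x y → P' k x y) (hP1 : P' k x y) (hP2 : P' k' x y) :
    Bbw g u v nm P' l (F1 ++ (nm k x y, j, a) :: (nm k' x y, j + 2, b) :: F2) := by
  obtain ⟨T, h1, h2⟩ := hB
  have hx : nm k x y ∉ T := by
    intro hx
    rcases h2 _ hx with e | e | ⟨k1, x1, y1, e1, e⟩
    · exact (H.nu k x y hv).1 e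
    · exact (H.nu k x y hv).2 e
    · obtain ⟨a, b, c⟩ := H.inj _ _ _ _ _ _ hv (hPv _ _ _ e1) e
      subst a b c
      exact hnew e1
  have key := Bw.edge F1 F2 (nm k x y) j a b h1 hx ha hab
  rw [hk, hd, add_zero] at key
  refine ⟨_, key, ?_⟩
  rintro z (hz | hz | hz)
  · rcases h2 z hz with e | e | ⟨k1, x1, y1, e1, e⟩
    · exact Or.inl e
    · exact Or.inr (Or.inl e)
    · exact Or.inr (Or.inr ⟨k1, x1, y1, hP _ _ _ e1, e⟩)
  · exact Or.inr (Or.inr ⟨k, x, y, hP1, hz⟩)
  · exact Or.inr (Or.inr ⟨k', x, y, hP2, hz⟩)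

variable (nm) (c r : ℕ → ℂ)

/-- the ends of the front at the bottom -/
noncomputable def wB (n : ℕ) : List (Fe D) :=
  (List.range n).map fun x => (nm 1 x 0, -1, dq (c x))

/-- the ends of the front on the horizontal line `y`, from right to left -/
noncomputable def wR (y n m : ℕ) : List (Fe D) :=
  ((List.range' n m).map fun x => (nm 0 x y, 1, c x)).reverse

/-- the ends of the front at the right -/
noncomputable def wC (w n : ℕ) : List (Fe D) :=
  (List.range n).map fun y => (nm 2 w y, 0, r y)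

/-- the ends of the front at the left, from top to bottom -/
noncomputable def wD (n : ℕ) : List (Fe D) :=
  ((List.range n).map fun y => (nm 3 0 y, 2, dp (r y))).reverse

omit [DecidableEq D] in
theorem wB_succ (n : ℕ) : wB nm c (n + 1) = wB nm c n ++ [(nm 1 n 0, -1, dq (c n))] := by
  unfold wB; rw [List.range_succ, List.map_append]; rfl

omit [DecidableEq D] in
theorem wC_succ (n : ℕ) : wC nm r w (n + 1) = wC nm r w n ++ [(nm 2 w n, 0, r n)] := by
  unfold wC; rw [List.range_succ, List.map_append]; rfl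

omit [DecidableEq D] in
theorem wD_succ (n : ℕ) : wD nm r (n + 1) = (nm 3 0 n, 2, dp (r n)) :: wD nm r n := by
  unfold wD; rw [List.range_succ, List.map_append, List.reverse_append]; rfl

omit [DecidableEq D] in
theorem wR_succ (y n : ℕ) : wR nm c y 0 (n + 1) = (nm 0 n y, 1, c n) :: wR nm c y 0 n := by
  unfold wR
  rw [List.range'_1_concat, List.map_append, List.reverse_append]
  simp

omit [DecidableEq D] in
theorem wR_first (y n m : ℕ) : wR nm c y n (m + 1) = wR nm c y (n + 1) m ++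
    [(nm 0 n y, 1, c n)] := by
  unfold wR
  rw [List.range'_succ, List.map_cons, List.reverse_cons]

variable {nm} {c r}

/-- the bottom wires -/
theorem wrect_bottom (H : RectN g u v w h nm) (hc : ∀ x, x < w → Nz (c x)) :
    ∀ n, n ≤ w → Bbw g u v nm (fun k x y => (k = 0 ∨ k = 1) ∧ x < n ∧ y = 0) []
      (wB nm c n ++ wR nm c 0 0 n) := by
  intro n
  induction n with
  | zero =>
    intro _
    refine ⟨_, Bw.nil H.uv, ?_⟩
    rintro z (hz | hz)
    · exact Or.inl hz
    · exact Or.inr (Or.inl hz)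
  | succ n ih =>
    intro hn
    have h1 := Bbw.edge H (wB nm c n) (wR nm c 0 0 n) (ih (by omega)) (k := 1) (k' := 0) (x := n)
      (y := 0) (j := -1) (hc n (by omega)).dq_ne.1 (hc n (by omega)).q_mul
      (by simp [Val]; omega) (H.hor n 0 (by omega) (by omega)).1
      (H.hor n 0 (by omega) (by omega)).2 (by rintro ⟨-, h, -⟩; omega)
      (P' := fun k x y => (k = 0 ∨ k = 1) ∧ x < n + 1 ∧ y = 0)
      (by rintro k x y ⟨h, h', rfl⟩; unfold Val; rw [if_pos h]; omega)
      (by rintro k x y ⟨h, h', rfl⟩; exact ⟨h, by omega, rfl⟩)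
      ⟨Or.inr rfl, by omega, rfl⟩ ⟨Or.inl rfl, by omega, rfl⟩
    rw [wB_succ, wR_succ, List.append_assoc]
    exact h1

/-- the tile `(x, y)` -/
def rTw (nm : Fin 4 → ℕ → ℕ → D) (wt : ℕ × ℕ → ℂ) (p : ℕ × ℕ) : Tl D :=
  ⟨nm 0 p.1 p.2, nm 2 p.1 p.2, nm 1 p.1 (p.2 + 1), nm 3 (p.1 + 1) p.2, wt p⟩

/-- a row of tiles -/
theorem wrect_row (H : RectN g u v w h nm) (hc : ∀ x, x < w → Nz (c x)) (wt : ℕ × ℕ → ℂ)
    {y : ℕ} (hy : y < h) (hr : Nz (r y)) (hYB : ∀ x, x < w → YB (c x) (r y) (wt (x, y)))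
    {A C : List (Fe D)} {l : List (Tl D)}
    (h0 : Bbw g u v nm (fun k x' y' => if k = 0 ∨ k = 1 then x' < w ∧ y' ≤ y else x' ≤ w ∧ y' < y)
      l (A ++ (wR nm c y 0 w ++ C))) :
    ∀ n, n ≤ w → Bbw g u v nm (Us w y n) ((rw' y n).map (rTw nm wt) ++ l)
      (A ++ (wR nm c y n (w - n) ++ (nm 2 n y, 0, r y) :: (wR nm c (y + 1) 0 n ++
        (nm 3 0 y, 2, dp (r y)) :: C))) := by
  intro n
  induction n with
  | zero =>
    intro _
    rw [← List.append_assoc] at h0
    have h1 := Bbw.edge H (A ++ wR nm c y 0 w) C h0 (k := 2) (k' := 3) (x := 0)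
      (y := y) (j := 0) hr.1 hr.p_mul (by simp [Val]; omega) (H.ver 0 y (by omega) hy).1
      (H.ver 0 y (by omega) hy).2 (by rw [if_neg (by decide)]; omega) (P' := Us w y 0)
      (by
        intro k x' y' hP
        unfold Val
        by_cases hk : k = 0 ∨ k = 1
        · rw [if_pos hk] at hP ⊢; omega
        · rw [if_neg hk] at hP ⊢; omega)
      (by
        intro k x' y' hP
        unfold Us
        by_cases hk : k = 0 ∨ k = 1
        · rw [if_pos hk] at hP ⊢; exact ⟨hP.1, Or.inl hP.2⟩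
        · rw [if_neg hk] at hP ⊢; exact Or.inl hP)
      (by unfold Us; rw [if_neg (by decide)]; right; omega)
      (by unfold Us; rw [if_neg (by decide)]; right; omega)
    have e2 : wR nm c (y + 1) 0 0 = [] := rfl
    rw [e2, List.nil_append, Nat.sub_zero]
    rw [List.append_assoc] at h1
    exact h1
  | succ n ih =>
    intro hn
    obtain ⟨m, hm⟩ : ∃ m, w - n = m + 1 := ⟨w - n - 1, by omega⟩
    have hm' : w - (n + 1) = m := by omega
    have h1 := ih (by omega)
    have hcn := hc n (by omega)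
    rw [hm, wR_first] at h1
    set A' := A ++ wR nm c y (n + 1) m with hA'
    set B := wR nm c (y + 1) 0 n ++ (nm 3 0 y, 2, dp (r y)) :: C with hB
    have e0 : A ++ (wR nm c y (n + 1) m ++ [(nm 0 n y, (1 : ℤ), c n)] ++
        (nm 2 n y, (0 : ℤ), r y) :: B) = (A' ++ [(nm 0 n y, (1 : ℤ), c n),
          (nm 2 n y, (0 : ℤ), r y)]) ++ B := by
      rw [hA']; simp
    rw [e0] at h1
    have hUv : ∀ k x' y', Us w y n k x' y' → Val w h k x' y' := by
      intro k x' y' hP
      unfold Us at hP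
      unfold Val
      by_cases hk : k = 0 ∨ k = 1
      · rw [if_pos hk] at hP ⊢; omega
      · rw [if_neg hk] at hP ⊢; omega
    -- the wire `N`
    have h2 := Bbw.edge H _ B h1 (k := 1) (k' := 0) (x := n) (y := y + 1) (j := -1)
      (P' := fun k x' y' => Us w y n k x' y' ∨ ((k = 0 ∨ k = 1) ∧ x' = n ∧ y' = y + 1))
      hcn.dq_ne.1 hcn.q_mul (by simp [Val]; omega)
      (H.hor n (y + 1) (by omega) (by omega)).1 (H.hor n (y + 1) (by omega) (by omega)).2
      (by unfold Us; rw [if_pos (by decide)]; omega) hUv (fun k x' y' hP => Or.inl hP)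
      (Or.inr ⟨Or.inr rfl, rfl, rfl⟩) (Or.inr ⟨Or.inl rfl, rfl, rfl⟩)
    have e3 : (A' ++ [(nm 0 n y, (1 : ℤ), c n), (nm 2 n y, (0 : ℤ), r y)]) ++
        (nm 1 n (y + 1), (-1 : ℤ), dq (c n)) :: (nm 0 n (y + 1), (-1 + 2 : ℤ), c n) :: B =
        (A' ++ [(nm 0 n y, (1 : ℤ), c n), (nm 2 n y, (0 : ℤ), r y),
          (nm 1 n (y + 1), (-1 : ℤ), dq (c n))]) ++
          ((nm 0 n (y + 1), (1 : ℤ), c n) :: B) := by
      simp
    rw [e3] at h2
    -- the wire `E`
    have hver := H.ver (n + 1) y (by omega) hy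
    have hver1 : g (nm 3 (n + 1) y) = nm 2 (n + 1) y := by rw [← hver.1, g.invol]
    have hver2 : g.d (nm 3 (n + 1) y) = 0 := by rw [← hver.1, g.anti, hver.2]; rfl
    have h3 := Bbw.edge H _ _ h2 (k := 3) (k' := 2) (x := n + 1) (y := y) (j := -2)
      (P' := Us w y (n + 1)) hr.dq_ne.1 hr.q_mul (by simp [Val]; omega) hver1 hver2
      (by
        unfold Us; rw [if_neg (by decide)]
        rintro (hP | ⟨hP, -⟩)
        · omega
        · exact absurd hP (by decide))
      (by
        rintro k x' y' (hP | ⟨hk, rfl, rfl⟩)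
        · exact hUv k x' y' hP
        · unfold Val; rw [if_pos hk]; omega)
      (by
        rintro k x' y' (hP | ⟨hk, rfl, rfl⟩)
        · unfold Us at hP ⊢
          by_cases hk : k = 0 ∨ k = 1
          · rw [if_pos hk] at hP ⊢; omega
          · rw [if_neg hk] at hP ⊢; omega
        · unfold Us; rw [if_pos hk]; omega)
      (by unfold Us; rw [if_neg (by decide)]; right; omega)
      (by unfold Us; rw [if_neg (by decide)]; right; omega)
    -- the tile
    obtain ⟨T, h4, h5⟩ := h3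
    have h6 := Bw.fill (g := g) (u := u) (v := v) (T := T) (l := (rw' y n).map (rTw nm wt) ++ l)
      A' ((nm 2 (n + 1) y, 0, r y) :: (nm 0 n (y + 1), 1, c n) :: B)
      (nm 0 n y) (nm 2 n y) (nm 1 n (y + 1)) (nm 3 (n + 1) y) 1 (c n) (r y) (dq (c n)) (dq (r y))
      (wt (n, y)) (by
        have : (1 : ℤ) - 1 = 0 := by norm_num
        rw [this]
        have : (1 : ℤ) - 2 = -1 := by norm_num
        rw [this]
        have : (1 : ℤ) - 3 = -2 := by norm_num
        rw [this]
        have e7 : (A' ++ [(nm 0 n y, (1 : ℤ), c n), (nm 2 n y, (0 : ℤ), r y),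
            (nm 1 n (y + 1), (-1 : ℤ), dq (c n))]) ++ (nm 3 (n + 1) y, (-2 : ℤ), dq (r y)) ::
            (nm 2 (n + 1) y, (-2 + 2 : ℤ), r y) :: ((nm 0 n (y + 1), (1 : ℤ), c n) :: B) =
            A' ++ (nm 0 n y, (1 : ℤ), c n) :: (nm 2 n y, (0 : ℤ), r y) ::
            (nm 1 n (y + 1), (-1 : ℤ), dq (c n)) :: (nm 3 (n + 1) y, (-2 : ℤ), dq (r y)) ::
            ((nm 2 (n + 1) y, (0 : ℤ), r y) :: (nm 0 n (y + 1), (1 : ℤ), c n) :: B) := by
          simp
        rw [e7] at h4
        exact h4) hcn.q_mul hr.q_mul (hYB n (by omega))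
    refine ⟨T, ?_, h5⟩
    rw [hm', wR_succ, rw'_succ, List.map_cons, List.cons_append, List.cons_append,
      ← List.append_assoc]
    exact h6

/-- all the rows -/
theorem wrect_rows (H : RectN g u v w h nm) (hw : 0 < w) (hc : ∀ x, x < w → Nz (c x))
    (wt : ℕ × ℕ → ℂ) (hr : ∀ y, y < h → Nz (r y))
    (hYB : ∀ x y, x < w → y < h → YB (c x) (r y) (wt (x, y))) : ∀ y, y ≤ h →
    Bbw g u v nm (fun k x' y' => if k = 0 ∨ k = 1 then x' < w ∧ y' ≤ y else x' ≤ w ∧ y' < y)
      ((rI w y).map (rTw nm wt))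
      ((wB nm c w ++ wC nm r w y) ++ (wR nm c y 0 w ++ wD nm r y)) := by
  intro y
  induction y with
  | zero =>
    intro _
    have h1 := wrect_bottom H hc w le_rfl
    have e1 : wC nm r w 0 = [] := rfl
    have e2 : wD nm r 0 = [] := rfl
    rw [e1, e2, List.append_nil, List.append_nil]
    refine h1.mono ?_
    rintro k x y ⟨hk, hx, rfl⟩
    rw [if_pos hk]
    exact ⟨hx, le_rfl⟩
  | succ y ih =>
    intro hy
    have h1 := wrect_row H hc wt (show y < h by omega) (hr y (by omega))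
      (fun x hx => hYB x y hx (by omega)) (ih (by omega)) w le_rfl
    rw [Nat.sub_self] at h1
    have e1 : wR nm c y w 0 = [] := rfl
    rw [e1, List.nil_append] at h1
    rw [wC_succ, wD_succ, rI, List.map_append]
    have e2 : (wB nm c w ++ (wC nm r w y ++ [(nm 2 w y, (0 : ℤ), r y)])) ++
        (wR nm c (y + 1) 0 w ++ (nm 3 0 y, (2 : ℤ), dp (r y)) :: wD nm r y) =
        (wB nm c w ++ wC nm r w y) ++ (nm 2 w y, (0 : ℤ), r y) :: (wR nm c (y + 1) 0 w ++
          (nm 3 0 y, (2 : ℤ), dp (r y)) :: wD nm r y) := by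
      simp
    rw [e2]
    refine h1.mono ?_
    intro k x' y' hP
    unfold Us at hP
    by_cases hk : k = 0 ∨ k = 1
    · rw [if_pos hk] at hP ⊢; omega
    · rw [if_neg hk] at hP ⊢; omega

/-- a full turn of a part of the front -/
noncomputable def rt4w (c : Fe D) : Fe D := (c.1, c.2.1 + 4, 1 - c.2.2⁻¹)

omit [DecidableEq D] in
theorem Bw.rots {T : Set D} {l : List (Tl D)} (F : List (Fe D)) (hF : ∀ c ∈ F, c.2.2 ≠ 1) :
    ∀ F' : List (Fe D), Bw g u v T l (F ++ F') → Bw g u v T l (F' ++ F.map rt4w) := by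
  induction F with
  | nil =>
    intro F' hB
    simpa using hB
  | cons c F ih =>
    intro F' hB
    obtain ⟨x, k, a⟩ := c
    rw [List.cons_append] at hB
    have h1 := Bw.rot _ _ _ _ hB (hF (x, k, a) (by simp))
    rw [List.append_assoc] at h1
    have h2 := ih (fun c hc => hF c (List.mem_cons_of_mem _ hc)) _ h1
    rw [List.append_assoc] at h2
    exact h2

/-- **Growth of a rectangle with weights.** The front: left side from top to bottom, bottom from left to
right; right side from bottom to top, top from right to left. -/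
theorem wrect (H : RectN g u v w h nm) (hw : 0 < w) (hc : ∀ x, x < w → Nz (c x))
    (wt : ℕ × ℕ → ℂ) (hr : ∀ y, y < h → Nz (r y))
    (hYB : ∀ x y, x < w → y < h → YB (c x) (r y) (wt (x, y))) :
    ∃ T, Bw g u v T ((rI w h).map (rTw nm wt))
      ((((List.range h).map fun y => (nm 3 0 y, 2, dp (r y))).reverse ++
        (List.range w).map fun x => (nm 1 x 0, 3, dp (c x))) ++
      (((List.range h).map fun y => (nm 2 w y, 4, dq (r y))) ++
        ((List.range w).map fun x => (nm 0 x h, 5, dq (c x))).reverse)) := by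
  obtain ⟨T, h1, -⟩ := wrect_rows H hw hc wt hr hYB h le_rfl
  refine ⟨T, ?_⟩
  have e0 : (wB nm c w ++ wC nm r w h) ++ (wR nm c h 0 w ++ wD nm r h) =
      (wB nm c w ++ wC nm r w h ++ wR nm c h 0 w) ++ wD nm r h := by simp
  rw [e0] at h1
  have h2 := Bw.rots _ (by
    intro c' hc'
    rw [List.mem_append, List.mem_append] at hc'
    rcases hc' with (hc' | hc') | hc'
    · unfold wB at hc'
      rw [List.mem_map] at hc'
      obtain ⟨x, hx, rfl⟩ := hc'
      exact (hc x (List.mem_range.1 hx)).dq_ne.2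
    · unfold wC at hc'
      rw [List.mem_map] at hc'
      obtain ⟨x, hx, rfl⟩ := hc'
      exact (hr x (List.mem_range.1 hx)).2
    · unfold wR at hc'
      rw [List.mem_reverse, List.mem_map] at hc'
      obtain ⟨x, hx, rfl⟩ := hc'
      rw [List.mem_range'] at hx
      obtain ⟨i, hi, rfl⟩ := hx
      exact (hc _ (by omega)).2) _ h1
  have e1 : (wB nm c w ++ wC nm r w h ++ wR nm c h 0 w).map rt4w =
      ((List.range w).map fun x => (nm 1 x 0, (3 : ℤ), dp (c x))) ++
      (((List.range h).map fun y => (nm 2 w y, (4 : ℤ), dq (r y))) ++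
        ((List.range w).map fun x => (nm 0 x h, (5 : ℤ), dq (c x))).reverse) := by
    unfold wB wC wR
    rw [List.map_append, List.map_append, List.append_assoc, List.map_map, List.map_map,
      List.map_reverse, List.map_map, ← List.range_eq_range']
    congr 1
    · apply List.map_congr_left
      intro x hx
      unfold rt4w
      simp only [Function.comp_apply]
      have h3 := (hc x (List.mem_range.1 hx)).dq_dq
      unfold dq at h3 ⊢
      rw [h3]
      norm_num
  rw [e1] at h2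
  rw [List.append_assoc]
  exact h2

end rect

end Pool.Agent.H34.W
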